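import Mathlib

set_option autoImplicit false

/-!
# Injectivity at a point of a cube

Let `φ_1, ..., φ_R : W → M` be linear maps such that every nontrivial combination has a kernel of
dimension at most `c`.  Every cube `β + ∑_{i ∈ S} w_i` (`S ⊆ F`) with sufficiently many linearly
independent directions contains a point `y` such that `φ_1 y, ..., φ_R y` are linearly independent.
-/

namespace Pool.Agent.H351R3.Log

open Finset Module

section

variable {κ : Type} [Field κ]

/-- linear combination of linear maps -/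
def comb {R : ℕ} {W M : Type} [AddCommGroup W] [Module κ W] [AddCommGroup M] [Module κ M]
    (φ : Fin R → (W →ₗ[κ] M)) (a : Fin R → κ) : W →ₗ[κ] M := ∑ r, a r • φ r

theorem comb_apply {R : ℕ} {W M : Type} [AddCommGroup W] [Module κ W] [AddCommGroup M] [Module κ M]
    (φ : Fin R → (W →ₗ[κ] M)) (a : Fin R → κ) (v : W) : comb φ a v = ∑ r, a r • φ r v := by
  simp [comb, LinearMap.sum_apply]

theorem comb_add {R : ℕ} {W M : Type} [AddCommGroup W] [Module κ W] [AddCommGroup M] [Module κ M]
    (φ : Fin R → (W →ₗ[κ] M)) (a b : Fin R → κ) : comb φ (a + b) = comb φ a + comb φ b := by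
  simp [comb, add_smul, Finset.sum_add_distrib]

theorem comb_smul {R : ℕ} {W M : Type} [AddCommGroup W] [Module κ W] [AddCommGroup M] [Module κ M]
    (φ : Fin R → (W →ₗ[κ] M)) (c : κ) (a : Fin R → κ) : comb φ (c • a) = c • comb φ a := by
  simp [comb, mul_smul, Finset.smul_sum]

theorem comb_neg {R : ℕ} {W M : Type} [AddCommGroup W] [Module κ W] [AddCommGroup M] [Module κ M]
    (φ : Fin R → (W →ₗ[κ] M)) (a : Fin R → κ) : comb φ (-a) = -comb φ a := by
  simp [comb, neg_smul, Finset.sum_neg_distrib]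

theorem comb_sub {R : ℕ} {W M : Type} [AddCommGroup W] [Module κ W] [AddCommGroup M] [Module κ M]
    (φ : Fin R → (W →ₗ[κ] M)) (a b : Fin R → κ) : comb φ (a - b) = comb φ a - comb φ b := by
  rw [sub_eq_add_neg, comb_add, comb_neg, sub_eq_add_neg]

theorem comb_cons {R : ℕ} {W M : Type} [AddCommGroup W] [Module κ W] [AddCommGroup M] [Module κ M]
    (φ : Fin (R + 1) → (W →ₗ[κ] M)) (a : Fin (R + 1) → κ) :
    comb φ a = a 0 • φ 0 + comb (fun r => φ r.succ) (fun r => a r.succ) := by
  simp [comb, Fin.sum_univ_succ]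

/-- rank of the kernel of a composition with a quotient map -/
theorem rank_ker_mkQ {W M : Type} [AddCommGroup W] [Module κ W] [AddCommGroup M] [Module κ M]
    (f : W →ₗ[κ] M) (G : Submodule κ M) (c g : ℕ) (hf : Module.rank κ (LinearMap.ker f) ≤ c)
    (hG : Module.rank κ G ≤ g) : Module.rank κ (LinearMap.ker (G.mkQ ∘ₗ f)) ≤ ((c + g : ℕ) : Cardinal) := by
  set K := LinearMap.ker (G.mkQ ∘ₗ f) with hK
  have hKG : ∀ v ∈ K, f v ∈ G := by
    intro v hv
    rw [hK, LinearMap.mem_ker, LinearMap.comp_apply, Submodule.mkQ_apply,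
      Submodule.Quotient.mk_eq_zero] at hv
    exact hv
  let f' : K →ₗ[κ] G := f.restrict hKG
  have h1 := LinearMap.rank_range_add_rank_ker f'
  rw [← h1]
  have h2 : Module.rank κ (LinearMap.range f') ≤ g := le_trans (Submodule.rank_le _) hG
  have h3 : Module.rank κ (LinearMap.ker f') ≤ c := by
    refine le_trans ?_ hf
    let j : LinearMap.ker f' →ₗ[κ] LinearMap.ker f :=
      { toFun := fun v => ⟨(v : K), by
          have hv := v.2
          rw [LinearMap.mem_ker] at hv ⊢
          exact congrArg Subtype.val hv⟩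
        map_add' := fun _ _ => rfl
        map_smul' := fun _ _ => rfl }
    apply LinearMap.rank_le_of_injective j
    intro v v' h
    apply Subtype.ext
    apply Subtype.ext
    exact congrArg (fun z : LinearMap.ker f => (z : W)) h
  push_cast
  rw [add_comm (c : Cardinal)]
  exact add_le_add h2 h3

/-- The statement for `R` maps. -/
def CubeInj (κ : Type) [Field κ] (R : ℕ) : Prop :=
  ∀ c : ℕ, ∃ N : ℕ, ∀ (W M : Type) [AddCommGroup W] [Module κ W] [AddCommGroup M] [Module κ M]
    (φ : Fin R → (W →ₗ[κ] M)), (∀ a ≠ 0, Module.rank κ (LinearMap.ker (comb φ a)) ≤ c) →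
    ∀ (ι : Type) (w : ι → W) (F : Finset ι), LinearIndepOn κ w (F : Set ι) → N ≤ F.card →
    ∀ β : W, ∃ T ⊆ F, ∀ a, comb φ a (β + ∑ i ∈ T, w i) = 0 → a = 0

theorem cubeInj_zero : CubeInj κ 0 := by
  intro c
  refine ⟨0, fun W M _ _ _ _ φ _ ι w F _ _ β => ⟨∅, Finset.empty_subset _, fun a _ => ?_⟩⟩
  exact Subsingleton.elim _ _

theorem card_le_of_ker {W M : Type} [AddCommGroup W] [Module κ W] [AddCommGroup M] [Module κ M]
    (f : W →ₗ[κ] M) (c : ℕ) (hf : Module.rank κ (LinearMap.ker f) ≤ c) {ι : Type} [Fintype ι]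
    (w : ι → W) (hw : LinearIndependent κ w) (h : ∀ i, f (w i) = 0) : Fintype.card ι ≤ c := by
  let w' : ι → LinearMap.ker f := fun i => ⟨w i, h i⟩
  have hw' : LinearIndependent κ w' := by
    have : LinearIndependent κ ((LinearMap.ker f).subtype ∘ w') := hw
    exact LinearIndependent.of_comp _ this
  have h1 := hw'.cardinal_le_rank
  have h2 : ((Fintype.card ι : ℕ) : Cardinal) ≤ (c : Cardinal) := by
    rw [← Cardinal.mk_fintype]
    exact h1.trans hf
  exact_mod_cast h2

theorem cubeInj_one : CubeInj κ 1 := by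
  classical
  intro c
  refine ⟨c + 1, fun W M _ _ _ _ φ hφ ι w F hw hF β => ?_⟩
  by_contra hcon
  push Not at hcon
  have hone : ∀ a : Fin 1 → κ, comb φ a = a 0 • φ 0 := by
    intro a; simp [comb]
  have hz : ∀ T ⊆ F, φ 0 (β + ∑ i ∈ T, w i) = 0 := by
    intro T hT
    obtain ⟨a, ha, ha0⟩ := hcon T hT
    rw [hone, LinearMap.smul_apply] at ha
    rcases smul_eq_zero.1 ha with h | h
    · exfalso
      apply ha0
      funext r
      rw [Subsingleton.elim r 0, h]
      rfl
    · exact h
  have h0 := hz ∅ (Finset.empty_subset _)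
  rw [Finset.sum_empty, add_zero] at h0
  have h1 : ∀ i : F, φ 0 (w i) = 0 := by
    intro i
    have := hz {(i : ι)} (Finset.singleton_subset_iff.2 i.2)
    rw [Finset.sum_singleton, map_add, h0, zero_add] at this
    exact this
  have h2 := hφ (fun _ => 1) (by intro h; exact one_ne_zero (congrFun h 0))
  rw [hone, one_smul] at h2
  have h3 := card_le_of_ker (φ 0) c h2 (fun i : F => w i) hw h1
  rw [Fintype.card_coe] at h3
  omega

/-- Several independent directions. -/
theorem multi_inj (R : ℕ) (hR : CubeInj κ R) (m : ℕ) : ∀ c : ℕ, ∃ N : ℕ, ∀ (W M : Type)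
    [AddCommGroup W] [Module κ W] [AddCommGroup M] [Module κ M]
    (φ : Fin R → (W →ₗ[κ] M)), (∀ a ≠ 0, Module.rank κ (LinearMap.ker (comb φ a)) ≤ c) →
    ∀ (ι : Type) [DecidableEq ι] (w : ι → W) (F : Finset ι), LinearIndepOn κ w (F : Set ι) →
    N ≤ F.card → ∀ β : W, ∃ T₀ ⊆ F, ∃ T : Fin m → Finset ι, (∀ i, T i ⊆ F) ∧
      (∀ i, Disjoint T₀ (T i)) ∧ (∀ i j, i ≠ j → Disjoint (T i) (T j)) ∧
      ∀ (g₀ : Fin R → κ) (g : Fin m → Fin R → κ),
        comb φ g₀ (β + ∑ i ∈ T₀, w i) + ∑ j, comb φ (g j) (∑ i ∈ T j, w i) = 0 →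
          g₀ = 0 ∧ ∀ j, g j = 0 := by
  induction m with
  | zero =>
    intro c
    obtain ⟨N, hN⟩ := hR c
    refine ⟨N, fun W M _ _ _ _ φ hφ ι _ w F hw hF β => ?_⟩
    obtain ⟨T, hT, h⟩ := hN W M φ hφ ι w F hw hF β
    refine ⟨T, hT, Fin.elim0, fun i => i.elim0, fun i => i.elim0, fun i => i.elim0, ?_⟩
    intro g₀ g hg
    refine ⟨h g₀ (by simpa using hg), fun j => j.elim0⟩
  | succ m ih =>
    intro c
    obtain ⟨N₁, hN₁⟩ := hR c
    obtain ⟨N₂, hN₂⟩ := ih (c + R)
    refine ⟨N₁ + N₂, fun W M _ _ _ _ φ hφ ι _ w F hw hF β => ?_⟩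
    obtain ⟨F₁, hF₁, hcard⟩ := Finset.exists_subset_card_eq (show N₁ ≤ F.card by omega)
    obtain ⟨T₁, hT₁, h₁⟩ := hN₁ W M φ hφ ι w F₁ (hw.mono (by exact_mod_cast hF₁)) hcard.ge 0
    rw [zero_add] at h₁
    -- the quotient
    set δ := ∑ i ∈ T₁, w i with hδ
    set G : Submodule κ M := Submodule.span κ (Set.range fun r => φ r δ) with hG
    have hGr : Module.rank κ G ≤ R := by
      refine (rank_span_le _).trans ?_
      refine Cardinal.mk_range_le.trans ?_
      simp
    have hcG : ∀ a : Fin R → κ, comb φ a δ ∈ G := by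
      intro a
      rw [comb_apply]
      exact Submodule.sum_mem _ fun r _ => Submodule.smul_mem _ _ (Submodule.subset_span ⟨r, rfl⟩)
    have hGc : ∀ z ∈ G, ∃ a : Fin R → κ, comb φ a δ = z := by
      intro z hz
      rw [hG, Submodule.mem_span_range_iff_exists_fun] at hz
      obtain ⟨a, ha⟩ := hz
      exact ⟨a, by rw [comb_apply]; exact ha⟩
    have hcomb : ∀ a, comb (fun r => G.mkQ ∘ₗ φ r) a = G.mkQ ∘ₗ comb φ a := by
      intro a
      ext v
      simp [comb_apply, LinearMap.comp_apply]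
    obtain ⟨T₀, hT₀, T, hT, hd₀, hd, hinj⟩ := hN₂ W (M ⧸ G) (fun r => G.mkQ ∘ₗ φ r) (by
      intro a ha
      rw [hcomb]
      exact rank_ker_mkQ _ G c R (hφ a ha) hGr) ι w (F \ F₁) (hw.mono (by
        intro i hi
        rw [Finset.mem_coe, Finset.mem_sdiff] at hi
        exact_mod_cast hi.1)) (by
        rw [Finset.card_sdiff_of_subset hF₁]; omega) β
    refine ⟨T₀, hT₀.trans Finset.sdiff_subset, Fin.cons T₁ T, ?_, ?_, ?_, ?_⟩
    · intro i
      refine Fin.cases ?_ (fun i => ?_) i
      · exact hT₁.trans hF₁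
      · exact (hT i).trans Finset.sdiff_subset
    · intro i
      refine Fin.cases ?_ (fun i => ?_) i
      · simp only [Fin.cons_zero]
        exact Finset.disjoint_of_subset_left hT₀
          (Finset.disjoint_of_subset_right hT₁ Finset.sdiff_disjoint)
      · exact hd₀ i
    · intro i j
      refine Fin.cases ?_ (fun i => ?_) i
      · refine Fin.cases ?_ (fun j => ?_) j
        · intro h; exact absurd rfl h
        · intro _
          simp only [Fin.cons_zero, Fin.cons_succ]
          exact (Finset.disjoint_of_subset_left (hT j)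
            (Finset.disjoint_of_subset_right hT₁ Finset.sdiff_disjoint)).symm
      · refine Fin.cases ?_ (fun j => ?_) j
        · intro _
          simp only [Fin.cons_zero, Fin.cons_succ]
          exact (Finset.disjoint_of_subset_left (hT i)
            (Finset.disjoint_of_subset_right hT₁ Finset.sdiff_disjoint))
        · intro h
          simp only [Fin.cons_succ]
          exact hd i j (fun h' => h (by rw [h']))
    · intro g₀ g hg
      rw [Fin.sum_univ_succ] at hg
      simp only [Fin.cons_zero, Fin.cons_succ] at hg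
      have h2 := hinj g₀ (fun j => g j.succ) (by
        have h3 : ∀ A B C : M, A + (B + C) = 0 → G.mkQ B = 0 → G.mkQ A + G.mkQ C = 0 := by
          intro A B C h hB
          have := congrArg G.mkQ h
          rw [map_zero, map_add, map_add, hB, zero_add] at this
          exact this
        have h4 : G.mkQ (comb φ (g 0) (∑ i ∈ T₁, w i)) = 0 := by
          rw [Submodule.mkQ_apply, Submodule.Quotient.mk_eq_zero]
          exact hcG _
        have h5 := h3 _ _ _ hg h4
        rw [map_sum] at h5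
        rw [← h5]
        simp only [hcomb, LinearMap.comp_apply])
      obtain ⟨h20, h2s⟩ := h2
      refine ⟨h20, fun j => ?_⟩
      have h5 : comb φ (g 0) (∑ i ∈ T₁, w i) = 0 := by
        rw [h20] at hg
        have h6 : comb φ (0 : Fin R → κ) = 0 := by simp [comb]
        rw [h6] at hg
        have h7 : ∑ x : Fin m, (comb φ (g x.succ)) (∑ i ∈ T x, w i) = 0 := by
          apply Finset.sum_eq_zero
          intro j _
          rw [h2s j, h6]; rfl
        rw [h7, LinearMap.zero_apply, zero_add, add_zero] at hg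
        exact hg
      refine Fin.cases ?_ (fun j => ?_) j
      · exact h₁ _ h5
      · exact h2s j

theorem cubeInj_succ (R : ℕ) (hR0 : 0 < R) (hR : CubeInj κ R) : CubeInj κ (R + 1) := by
  classical
  intro c
  obtain ⟨N, hN⟩ := multi_inj R hR (c + 2) c
  refine ⟨N, fun W M _ _ _ _ φ hφ ι w F hw hF β => ?_⟩
  set φ' : Fin R → (W →ₗ[κ] M) := fun r => φ r.succ with hφ'
  have hφ'c : ∀ a ≠ 0, Module.rank κ (LinearMap.ker (comb φ' a)) ≤ c := by
    intro a ha
    have h1 := hφ (Fin.cons 0 a) (by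
      intro h
      apply ha
      funext r
      have := congrFun h r.succ
      simpa using this)
    have e : comb φ (Fin.cons 0 a) = comb φ' a := by
      rw [comb_cons]
      simp [hφ']
    rw [e] at h1
    exact h1
  obtain ⟨T₀, hT₀, T, hT, hd₀, hd, hinj⟩ := hN W M φ' hφ'c ι w F hw hF β
  set y := β + ∑ i ∈ T₀, w i with hy
  set δ : Fin (c + 2) → W := fun j => ∑ i ∈ T j, w i with hδ
  -- injectivity on triples
  have hzero : comb φ' (0 : Fin R → κ) = 0 := by simp [comb]
  have hpair : ∀ i j : Fin (c + 2), i ≠ j → ∀ a b d : Fin R → κ,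
      comb φ' a y + comb φ' b (δ i) + comb φ' d (δ j) = 0 → a = 0 ∧ b = 0 ∧ d = 0 := by
    intro i j hij a b d h
    have h1 := hinj a (fun k => if k = i then b else if k = j then d else 0) (by
      rw [← h, add_assoc]
      congr 1
      rw [← Finset.add_sum_erase _ _ (Finset.mem_univ i), if_pos rfl]
      congr 1
      rw [← Finset.add_sum_erase _ _ (show j ∈ univ.erase i from
        Finset.mem_erase.2 ⟨hij.symm, Finset.mem_univ j⟩), if_neg hij.symm, if_pos rfl]
      have hs0 : ∑ k ∈ (univ.erase i).erase j,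
          comb φ' (if k = i then b else if k = j then d else 0) (∑ i ∈ T k, w i) = 0 := by
        apply Finset.sum_eq_zero
        intro k hk
        rw [Finset.mem_erase, Finset.mem_erase] at hk
        rw [if_neg hk.2.1, if_neg hk.1, hzero, LinearMap.zero_apply]
      rw [hs0, add_zero])
    refine ⟨h1.1, ?_, ?_⟩
    · have := h1.2 i
      simpa using this
    · have := h1.2 j
      simpa [hij.symm] using this
  by_contra hcon
  push Not at hcon
  -- normalised relations
  have hnorm : ∀ (A : Finset ι), A ⊆ F → (∀ a : Fin R → κ, comb φ' a (β + ∑ i ∈ A, w i) = 0 → a = 0) →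
      ∃ g : Fin R → κ, φ 0 (β + ∑ i ∈ A, w i) + comb φ' g (β + ∑ i ∈ A, w i) = 0 := by
    intro A hA hAinj
    obtain ⟨a, ha, ha0⟩ := hcon A hA
    rw [comb_cons] at ha
    have ha00 : a 0 ≠ 0 := by
      intro h
      apply ha0
      rw [h, zero_smul, zero_add] at ha
      have h2 := hAinj _ ha
      funext r
      refine Fin.cases h (fun r => ?_) r
      exact congrFun h2 r
    refine ⟨(a 0)⁻¹ • (fun r => a r.succ), ?_⟩
    rw [comb_smul]
    have h3 := congrArg (fun z => (a 0)⁻¹ • z) ha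
    simp only [LinearMap.add_apply, LinearMap.smul_apply, smul_add, smul_smul, smul_zero,
      inv_mul_cancel₀ ha00, one_smul] at h3
    rw [LinearMap.smul_apply]
    exact h3
  -- the base relation
  have hother : ∀ i : Fin (c + 2), ∃ j, i ≠ j := by
    intro i
    by_cases h : i = 0
    · exact ⟨1, by rw [h]; exact Fin.zero_ne_one⟩
    · exact ⟨0, h⟩
  have hinj0 : ∀ a : Fin R → κ, comb φ' a (β + ∑ i ∈ T₀, w i) = 0 → a = 0 := by
    intro a ha
    exact (hpair 0 1 Fin.zero_ne_one a 0 0 (by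
      rw [hzero, LinearMap.zero_apply, LinearMap.zero_apply, add_zero, add_zero]; exact ha)).1
  obtain ⟨g₀, hg₀⟩ := hnorm T₀ hT₀ hinj0
  have hsum1 : ∀ i, β + ∑ k ∈ T₀ ∪ T i, w k = y + δ i := by
    intro i
    rw [Finset.sum_union (hd₀ i), hy, hδ, add_assoc]
  have hsum2 : ∀ i j, i ≠ j → β + ∑ k ∈ T₀ ∪ (T i ∪ T j), w k = y + δ i + δ j := by
    intro i j hij
    rw [Finset.sum_union (Finset.disjoint_union_right.2 ⟨hd₀ i, hd₀ j⟩),
      Finset.sum_union (hd i j hij), hy, hδ]
    simp only [add_assoc]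
  have hinj1 : ∀ i, ∀ a : Fin R → κ, comb φ' a (β + ∑ k ∈ T₀ ∪ T i, w k) = 0 → a = 0 := by
    intro i a ha
    obtain ⟨j, hij⟩ := hother i
    rw [hsum1, map_add] at ha
    exact (hpair i j hij a a 0 (by rw [hzero, LinearMap.zero_apply, add_zero]; exact ha)).1
  have hinj2 : ∀ i j, i ≠ j → ∀ a : Fin R → κ,
      comb φ' a (β + ∑ k ∈ T₀ ∪ (T i ∪ T j), w k) = 0 → a = 0 := by
    intro i j hij a ha
    rw [hsum2 i j hij, map_add, map_add] at ha
    exact (hpair i j hij a a a ha).1
  have hall : ∀ i, φ 0 (δ i) + comb φ' g₀ (δ i) = 0 := by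
    intro i
    obtain ⟨j, hij⟩ := hother i
    obtain ⟨gi, hgi⟩ := hnorm _ (Finset.union_subset hT₀ (hT i)) (hinj1 i)
    obtain ⟨gj, hgj⟩ := hnorm _ (Finset.union_subset hT₀ (hT j)) (hinj1 j)
    obtain ⟨gij, hgij⟩ := hnorm _ (Finset.union_subset hT₀ (Finset.union_subset (hT i) (hT j)))
      (hinj2 i j hij)
    rw [hsum1] at hgi hgj
    rw [hsum2 i j hij] at hgij
    have h1 := hpair i j hij (gij - gi - gj + g₀) (gij - gi) (gij - gj) (by
      simp only [comb_sub, comb_add, LinearMap.sub_apply, LinearMap.add_apply]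
      simp only [map_add] at hgi hgj hgij
      have h2 : φ 0 y + comb φ' g₀ y = 0 := hg₀
      have h3 : comb φ' gij y - comb φ' gi y - comb φ' gj y + comb φ' g₀ y +
          (comb φ' gij (δ i) - comb φ' gi (δ i)) + (comb φ' gij (δ j) - comb φ' gj (δ j)) =
          (φ 0 y + φ 0 (δ i) + φ 0 (δ j) + (comb φ' gij y + comb φ' gij (δ i) + comb φ' gij (δ j))) -
          (φ 0 y + φ 0 (δ i) + (comb φ' gi y + comb φ' gi (δ i))) -
          (φ 0 y + φ 0 (δ j) + (comb φ' gj y + comb φ' gj (δ j))) + (φ 0 y + comb φ' g₀ y) := by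
        abel
      rw [h3, h2, hgi, hgj, hgij]
      simp)
    obtain ⟨e1, e2, e3⟩ := h1
    have e4 : gij = gi := sub_eq_zero.1 e2
    have e5 : gij = gj := sub_eq_zero.1 e3
    have e6 : gi = g₀ := by
      rw [← e5, e4] at e1
      have : g₀ - gi = 0 := by
        rw [← e1]; abel
      exact (sub_eq_zero.1 this).symm
    rw [e6] at hgi
    have h4 : φ 0 (y + δ i) = φ 0 y + φ 0 (δ i) := map_add _ _ _
    have h5 : comb φ' g₀ (y + δ i) = comb φ' g₀ y + comb φ' g₀ (δ i) := map_add _ _ _
    rw [h4, h5] at hgi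
    have h2 : φ 0 y + comb φ' g₀ y = 0 := hg₀
    have h3 : φ 0 (δ i) + comb φ' g₀ (δ i) =
      (φ 0 y + φ 0 (δ i) + (comb φ' g₀ y + comb φ' g₀ (δ i))) - (φ 0 y + comb φ' g₀ y) := by abel
    rw [h3, hgi, h2, sub_zero]
  -- contradiction with the kernel bound
  have hδind : LinearIndependent κ δ := by
    rw [Fintype.linearIndependent_iff]
    intro e he j
    set r₀ : Fin R := ⟨0, hR0⟩ with hr₀
    have h1 := hinj 0 (fun k => e k • (Pi.single r₀ 1 : Fin R → κ)) (by
      rw [hzero, LinearMap.zero_apply, zero_add]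
      have h2 : ∀ k, comb φ' (e k • (Pi.single r₀ 1 : Fin R → κ)) (∑ i ∈ T k, w i) =
          comb φ' (Pi.single r₀ 1 : Fin R → κ) (e k • δ k) := by
        intro k
        rw [comb_smul, LinearMap.smul_apply, map_smul]
      simp only [h2]
      rw [← map_sum, he, map_zero])
    have h3 := congrFun (h1.2 j) r₀
    simpa using h3
  have hk := hφ (Fin.cons 1 g₀) (by
    intro h
    have := congrFun h 0
    simp at this)
  have hfin := card_le_of_ker _ c hk δ hδind (by
    intro i
    rw [comb_cons, LinearMap.add_apply, Fin.cons_zero, one_smul]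
    simpa using hall i)
  rw [Fintype.card_fin] at hfin
  omega

theorem cubeInj (R : ℕ) : CubeInj κ R := by
  induction R with
  | zero => exact cubeInj_zero
  | succ R ih =>
    rcases Nat.eq_zero_or_pos R with h | h
    · subst h; exact cubeInj_one
    · exact cubeInj_succ R h ih

/-- Version for an abstract finite-dimensional space of maps. -/
theorem cube_inj_space (U : Type) [AddCommGroup U] [Module κ U] [Module.Finite κ U] (c : ℕ) :
    ∃ N : ℕ, ∀ (W M : Type) [AddCommGroup W] [Module κ W] [AddCommGroup M] [Module κ M]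
    (Φ : U →ₗ[κ] W →ₗ[κ] M), (∀ u ≠ 0, Module.rank κ (LinearMap.ker (Φ u)) ≤ c) →
    ∀ (ι : Type) (w : ι → W) (F : Finset ι), LinearIndepOn κ w (F : Set ι) → N ≤ F.card →
    ∀ β : W, ∃ T ⊆ F, ∀ u, Φ u (β + ∑ i ∈ T, w i) = 0 → u = 0 := by
  obtain ⟨N, hN⟩ := cubeInj (κ := κ) (finrank κ U) c
  refine ⟨N, fun W M _ _ _ _ Φ hΦ ι w F hw hF β => ?_⟩
  set b := Module.finBasis κ U with hb
  have hcomb : ∀ a : Fin (finrank κ U) → κ, comb (fun r => Φ (b r)) a = Φ (∑ r, a r • b r) := by
    intro a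
    simp [comb, map_sum]
  obtain ⟨T, hT, h⟩ := hN W M (fun r => Φ (b r)) (by
    intro a ha
    rw [hcomb]
    apply hΦ
    intro h0
    apply ha
    funext r
    exact (Fintype.linearIndependent_iff.1 b.linearIndependent) a h0 r) ι w F hw hF β
  refine ⟨T, hT, fun u hu => ?_⟩
  have h1 := h (fun r => b.repr u r) (by rw [hcomb, b.sum_repr]; exact hu)
  rw [← b.sum_repr u]
  apply Finset.sum_eq_zero
  intro r _
  rw [congrFun h1 r]
  simp

end

end Pool.Agent.H351R3.Log
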