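import Mathlib

set_option autoImplicit false

/-!
# Functions on cubes and their degrees
-/

namespace Pool.Agent.H351R3.Log

open Finset

section

variable {K : Type} [DecidableEq K] {E : Type} [CommRing E]

variable (E) in
/-- the squarefree monomial attached to `J`, as a function on the cube -/
def ind (J : Finset K) : Finset K → E := fun S => if J ⊆ S then 1 else 0

theorem ind_mul (J J' : Finset K) : ind E J * ind E J' = ind E (J ∪ J') := by
  funext S
  simp only [ind, Pi.mul_apply, Finset.union_subset_iff]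
  by_cases h1 : J ⊆ S <;> by_cases h2 : J' ⊆ S <;> simp [h1, h2]

theorem ind_empty : ind E (∅ : Finset K) = 1 := by
  funext S; simp [ind]

variable (K E) in
/-- functions of degree `< b` on the cube -/
def Fil (b : ℕ) : Submodule E (Finset K → E) :=
  Submodule.span E {f | ∃ J : Finset K, J.card < b ∧ f = ind E J}

theorem ind_mem {J : Finset K} {b : ℕ} (h : J.card < b) : ind E J ∈ Fil K E b :=
  Submodule.subset_span ⟨J, h, rfl⟩

theorem Fil_mono {a b : ℕ} (h : a ≤ b) : Fil K E a ≤ Fil K E b := by
  apply Submodule.span_mono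
  rintro f ⟨J, hJ, rfl⟩
  exact ⟨J, hJ.trans_le h, rfl⟩

theorem Fil_mul {a b : ℕ} {f g : Finset K → E} (hf : f ∈ Fil K E a) (hg : g ∈ Fil K E (b + 1)) :
    f * g ∈ Fil K E (a + b) := by
  have h := Submodule.mul_mem_mul hf hg
  rw [Fil, Fil, Submodule.span_mul_span] at h
  refine Submodule.span_le.2 ?_ h
  rintro _ ⟨f, ⟨J, hJ, rfl⟩, g, ⟨J', hJ', rfl⟩, rfl⟩
  simp only [ind_mul]
  apply ind_mem
  have := Finset.card_union_le J J'
  omega

theorem Fil_prod {I : Type} [DecidableEq I] (s : Finset I) (d : I → ℕ) (f : I → Finset K → E)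
    (hf : ∀ j ∈ s, f j ∈ Fil K E (d j + 1)) : ∏ j ∈ s, f j ∈ Fil K E (∑ j ∈ s, d j + 1) := by
  induction s using Finset.induction_on with
  | empty =>
    rw [Finset.prod_empty, Finset.sum_empty, ← ind_empty]
    exact ind_mem (by simp)
  | insert a s ha ih =>
    rw [Finset.prod_insert ha, Finset.sum_insert ha]
    have h1 := Fil_mul (hf a (Finset.mem_insert_self _ _))
      (ih (fun j hj => hf j (Finset.mem_insert_of_mem hj)))
    refine Fil_mono ?_ h1
    omega

/-- the alternating sum -/
def alt [Fintype K] (f : Finset K → E) : E := ∑ S : Finset K, (-1) ^ S.card * f S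

theorem alt_ind [Fintype K] (J : Finset K) :
    alt (ind E J) = if J = univ then (-1) ^ (Fintype.card K) else 0 := by
  have h := Finset.prod_add (fun _ : K => (-1 : E)) (fun k => if k ∈ J then 0 else 1) univ
  have h1 : alt (ind E J) = ∏ i : K, ((-1 : E) + if i ∈ J then 0 else 1) := by
    rw [h, alt, Finset.powerset_univ]
    apply Finset.sum_congr rfl
    intro S _
    rw [Finset.prod_const]
    congr 1
    rw [ind]
    split_ifs with hJ
    · symm
      apply Finset.prod_eq_one
      intro k hk
      rw [Finset.mem_sdiff] at hk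
      rw [if_neg (fun h' => hk.2 (hJ h'))]
    · symm
      rw [Finset.not_subset] at hJ
      obtain ⟨k, hk, hkS⟩ := hJ
      apply Finset.prod_eq_zero (i := k)
      · rw [Finset.mem_sdiff]; exact ⟨mem_univ k, hkS⟩
      · rw [if_pos hk]
  rw [h1]
  split_ifs with hJ
  · subst hJ
    simp [Finset.card_univ]
  · have : ∃ k, k ∉ J := by
      by_contra hcon
      push Not at hcon
      exact hJ (Finset.eq_univ_iff_forall.2 hcon)
    obtain ⟨k, hk⟩ := this
    apply Finset.prod_eq_zero (i := k) (mem_univ k)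
    rw [if_neg hk]; ring

theorem alt_Fil [Fintype K] {f : Finset K → E} (hf : f ∈ Fil K E (Fintype.card K)) : alt f = 0 := by
  rw [Fil] at hf
  induction hf using Submodule.span_induction with
  | mem f hf =>
    obtain ⟨J, hJ, rfl⟩ := hf
    rw [alt_ind, if_neg]
    rintro rfl
    rw [Finset.card_univ] at hJ
    exact lt_irrefl _ hJ
  | zero => simp [alt]
  | add f g _ _ hf hg =>
    have : alt (f + g) = alt f + alt g := by
      simp [alt, mul_add, Finset.sum_add_distrib]
    rw [this, hf, hg, add_zero]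
  | smul a f _ hf =>
    have : alt (a • f) = a * alt f := by
      simp only [alt, Pi.smul_apply, smul_eq_mul, Finset.mul_sum]
      exact Finset.sum_congr rfl (fun _ _ => by ring)
    rw [this, hf, mul_zero]

/-- A function with nonzero top coefficient does not vanish on the whole cube. -/
theorem exists_ne_zero [Fintype K] {f : Finset K → E} (c : E) (hc : c ≠ 0)
    (hf : f - c • ind E (univ : Finset K) ∈ Fil K E (Fintype.card K)) : ∃ S, f S ≠ 0 := by
  by_contra hcon
  push Not at hcon
  have hf0 : f = 0 := funext hcon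
  have h1 := alt_Fil hf
  rw [hf0, zero_sub] at h1
  have h2 : alt (-(c • ind E (univ : Finset K))) = -(c * alt (ind E (univ : Finset K))) := by
    simp only [alt, Pi.neg_apply, Pi.smul_apply, smul_eq_mul, Finset.mul_sum]
    rw [← Finset.sum_neg_distrib]
    exact Finset.sum_congr rfl (fun _ _ => by ring)
  rw [h2, alt_ind, if_pos rfl, neg_eq_zero] at h1
  apply hc
  have h3 : c * (-1) ^ Fintype.card K * (-1) ^ Fintype.card K = 0 := by rw [h1, zero_mul]
  rwa [mul_assoc, ← mul_pow, neg_one_mul, neg_neg, one_pow, mul_one] at h3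

/-- products with prescribed leading terms -/
theorem prod_lead {I : Type} [DecidableEq I] (s : Finset I) (d : I → ℕ) (f e : I → Finset K → E)
    (he : ∀ j ∈ s, e j ∈ Fil K E (d j + 1)) (hf : ∀ j ∈ s, f j - e j ∈ Fil K E (d j)) :
    ∏ j ∈ s, f j - ∏ j ∈ s, e j ∈ Fil K E (∑ j ∈ s, d j) := by
  have hf' : ∀ j ∈ s, f j ∈ Fil K E (d j + 1) := by
    intro j hj
    have := Submodule.add_mem _ (Fil_mono (Nat.le_succ _) (hf j hj)) (he j hj)
    rwa [sub_add_cancel] at this
  induction s using Finset.induction_on with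
  | empty => simp
  | insert a s ha ih =>
    have ih' := ih (fun j hj => he j (Finset.mem_insert_of_mem hj))
      (fun j hj => hf j (Finset.mem_insert_of_mem hj))
      (fun j hj => hf' j (Finset.mem_insert_of_mem hj))
    rw [Finset.prod_insert ha, Finset.prod_insert ha, Finset.sum_insert ha]
    have h1 : f a * ∏ j ∈ s, f j - e a * ∏ j ∈ s, e j =
        (f a - e a) * ∏ j ∈ s, f j + (∏ j ∈ s, f j - ∏ j ∈ s, e j) * e a := by ring
    rw [h1]
    apply Submodule.add_mem
    · exact Fil_mul (hf a (Finset.mem_insert_self _ _))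
        (Fil_prod s d f (fun j hj => hf' j (Finset.mem_insert_of_mem hj)))
    · rw [add_comm (d a)]
      exact Fil_mul ih' (he a (Finset.mem_insert_self _ _))

/-- determinants with prescribed leading terms -/
theorem det_lead {I : Type} [Fintype I] [DecidableEq I] (d : I → ℕ)
    (A : Matrix I I (Finset K → E)) (e : I → Finset K → E) (he : ∀ j, e j ∈ Fil K E (d j + 1))
    (hd : ∀ j, A j j - e j ∈ Fil K E (d j)) (ho : ∀ i j, i ≠ j → A i j ∈ Fil K E (d j)) :
    A.det - ∏ j, e j ∈ Fil K E (∑ j, d j) := by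
  rw [Matrix.det_apply', ← Finset.add_sum_erase _ _ (Finset.mem_univ (1 : Equiv.Perm I))]
  have h1 : (((Equiv.Perm.sign (1 : Equiv.Perm I) : ℤ) : Finset K → E)) * ∏ i, A ((1 : Equiv.Perm I) i) i =
      ∏ i, A i i := by simp
  rw [h1, add_sub_right_comm]
  apply Submodule.add_mem
  · exact prod_lead univ d (fun j => A j j) e (fun j _ => he j) (fun j _ => hd j)
  · apply Submodule.sum_mem
    intro π hπ
    rw [Finset.mem_erase] at hπ
    have h2 : ∃ j, π j ≠ j := by
      by_contra hcon
      push Not at hcon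
      exact hπ.1 (Equiv.ext hcon)
    obtain ⟨j₀, hj₀⟩ := h2
    have h3 : ∏ i, A (π i) i ∈ Fil K E (∑ j, d j) := by
      rw [← Finset.mul_prod_erase _ _ (Finset.mem_univ j₀), ← Finset.add_sum_erase _ _ (Finset.mem_univ j₀)]
      apply Fil_mul (ho _ _ hj₀)
      apply Fil_prod
      intro j _
      by_cases hj : π j = j
      · rw [hj]
        have := Submodule.add_mem _ (Fil_mono (Nat.le_succ _) (hd j)) (he j)
        rwa [sub_add_cancel] at this
      · exact Fil_mono (Nat.le_succ _) (ho _ _ hj)
    have h4 : (((Equiv.Perm.sign π : ℤ) : Finset K → E)) * ∏ i, A (π i) i =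
        (Equiv.Perm.sign π : ℤ) • ∏ i, A (π i) i := by
      rw [zsmul_eq_mul]
    rw [h4]
    exact zsmul_mem h3 _

/-- the leading form of a power -/
def top [Fintype K] (δ : K → E) (b : ℕ) : Finset K → E :=
  ∑ J ∈ powersetCard b univ, (∏ k ∈ J, δ k) • ind E J

theorem top_mem [Fintype K] (δ : K → E) (b : ℕ) : top δ b ∈ Fil K E (b + 1) := by
  apply Submodule.sum_mem
  intro J hJ
  apply Submodule.smul_mem
  apply ind_mem
  rw [Finset.mem_powersetCard] at hJ
  omega

theorem double_count [Fintype K] {M : Type} [AddCommMonoid M] (G : Finset K → M) (b : ℕ) :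
    ∑ J ∈ powersetCard b univ, ∑ k ∈ univ \ J, G (insert k J) =
      ∑ J ∈ powersetCard (b + 1) univ, ∑ _k ∈ J, G J := by
  rw [Finset.sum_sigma', Finset.sum_sigma']
  refine Finset.sum_bij' (fun p _ => ⟨insert p.2 p.1, p.2⟩) (fun p _ => ⟨p.1.erase p.2, p.2⟩) ?_ ?_ ?_ ?_ ?_
  · rintro ⟨J, k⟩ h
    simp only [Finset.mem_sigma, Finset.mem_powersetCard, Finset.mem_sdiff] at h ⊢
    refine ⟨⟨Finset.subset_univ _, ?_⟩, Finset.mem_insert_self _ _⟩
    rw [Finset.card_insert_of_notMem h.2.2, h.1.2]
  · rintro ⟨J, k⟩ h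
    simp only [Finset.mem_sigma, Finset.mem_powersetCard, Finset.mem_sdiff] at h ⊢
    refine ⟨⟨Finset.subset_univ _, ?_⟩, mem_univ _, Finset.notMem_erase _ _⟩
    rw [Finset.card_erase_of_mem h.2, h.1.2]; rfl
  · rintro ⟨J, k⟩ h
    simp only [Finset.mem_sigma, Finset.mem_powersetCard, Finset.mem_sdiff] at h
    simp only
    rw [Finset.erase_insert h.2.2]
  · rintro ⟨J, k⟩ h
    simp only [Finset.mem_sigma, Finset.mem_powersetCard] at h
    simp only
    rw [Finset.insert_erase h.2]
  · rintro ⟨J, k⟩ _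
    rfl

/-- the point of the cube -/
def pt [Fintype K] (β : E) (δ : K → E) : Finset K → E := fun S => β + ∑ k ∈ S, δ k

theorem pt_eq [Fintype K] (β : E) (δ : K → E) :
    pt β δ = β • ind E ∅ + ∑ k, δ k • ind E {k} := by
  funext S
  rw [pt, Pi.add_apply, Pi.smul_apply, ind_empty, Finset.sum_apply]
  simp only [Pi.smul_apply, ind, Finset.singleton_subset_iff, smul_eq_mul, Pi.one_apply, mul_one,
    mul_ite, mul_zero]
  rw [Finset.sum_ite_mem, Finset.univ_inter]

theorem pt_mem [Fintype K] (β : E) (δ : K → E) : pt β δ ∈ Fil K E (1 + 1) := by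
  rw [pt_eq]
  apply Submodule.add_mem
  · exact Submodule.smul_mem _ _ (ind_mem (by simp))
  · exact Submodule.sum_mem _ fun k _ => Submodule.smul_mem _ _ (ind_mem (by simp))

theorem top_mul [Fintype K] (δ : K → E) (b : ℕ) :
    top δ b * (∑ k, δ k • ind E {k}) - ((b + 1 : ℕ) : E) • top δ (b + 1) ∈ Fil K E (b + 1) := by
  have h1 : top δ b * (∑ k, δ k • ind E {k}) =
      ∑ J ∈ powersetCard b univ, ∑ k ∈ J, ((∏ k ∈ J, δ k) * δ k) • ind E J +
      ∑ J ∈ powersetCard b univ, ∑ k ∈ univ \ J, (∏ l ∈ insert k J, δ l) • ind E (insert k J) := by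
    rw [top, Finset.sum_mul, ← Finset.sum_add_distrib]
    apply Finset.sum_congr rfl
    intro J _
    rw [Finset.mul_sum, ← Finset.sum_sdiff (Finset.subset_univ J), add_comm]
    congr 1
    · apply Finset.sum_congr rfl
      intro k hk
      rw [smul_mul_smul_comm, ind_mul]
      congr 2
      exact Finset.union_eq_left.2 (Finset.singleton_subset_iff.2 hk)
    · apply Finset.sum_congr rfl
      intro k hk
      rw [Finset.mem_sdiff] at hk
      rw [smul_mul_smul_comm, ind_mul, Finset.prod_insert hk.2, mul_comm (δ k), Finset.union_comm,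
        ← Finset.insert_eq]
  have h2 : ∑ J ∈ powersetCard b univ, ∑ k ∈ univ \ J, (∏ l ∈ insert k J, δ l) • ind E (insert k J) =
      ((b + 1 : ℕ) : E) • top δ (b + 1) := by
    rw [double_count (fun J => (∏ l ∈ J, δ l) • ind E J) b, top, Finset.smul_sum]
    apply Finset.sum_congr rfl
    intro J hJ
    rw [Finset.mem_powersetCard] at hJ
    rw [Finset.sum_const, hJ.2, Nat.cast_smul_eq_nsmul]
  rw [h1, h2, add_sub_cancel_right]
  apply Submodule.sum_mem
  intro J hJ
  rw [Finset.mem_powersetCard] at hJ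
  exact Submodule.sum_mem _ fun k _ => Submodule.smul_mem _ _ (ind_mem (by omega))

/-- Powers of the coordinate along a cube. -/
theorem pow_lead [Fintype K] (β : E) (δ : K → E) (b : ℕ) :
    pt β δ ^ b - (b.factorial : E) • top δ b ∈ Fil K E b := by
  induction b with
  | zero =>
    have : top δ 0 = (1 : Finset K → E) := by
      rw [top, Finset.powersetCard_zero, Finset.sum_singleton, Finset.prod_empty, one_smul, ind_empty]
    rw [this, pow_zero, Nat.factorial_zero, Nat.cast_one, one_smul, sub_self]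
    exact Submodule.zero_mem _
  | succ b ih =>
    have h1 : pt β δ ^ (b + 1) - ((b + 1).factorial : E) • top δ (b + 1) =
        (pt β δ ^ b - (b.factorial : E) • top δ b) * pt β δ +
        (b.factorial : E) • (β • top δ b) +
        (b.factorial : E) • (top δ b * (∑ k, δ k • ind E {k}) - ((b + 1 : ℕ) : E) • top δ (b + 1)) := by
      have h2 : pt β δ = β • (1 : Finset K → E) + ∑ k, δ k • ind E {k} := by
        rw [pt_eq, ind_empty]
      have h3 : ((b + 1).factorial : E) = (b.factorial : E) * ((b + 1 : ℕ) : E) := by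
        rw [Nat.factorial_succ]; push_cast; ring
      rw [h3, pow_succ, sub_mul]
      have h4 : ((b.factorial : E) • top δ b) * pt β δ = (b.factorial : E) • (β • top δ b) +
          (b.factorial : E) • (top δ b * (∑ k, δ k • ind E {k})) := by
        rw [h2, smul_mul_assoc, mul_add, smul_add, mul_smul_comm, mul_one]
      rw [h4, smul_sub, mul_smul]
      abel
    rw [h1]
    refine Submodule.add_mem _ (Submodule.add_mem _ ?_ ?_) ?_
    · exact Fil_mul ih (pt_mem β δ)
    · exact Submodule.smul_mem _ _ (Submodule.smul_mem _ _ (top_mem δ b))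
    · exact Submodule.smul_mem _ _ (top_mul δ b)

/-- Transfer by linear functionals. -/
theorem Fil_functional {κ C : Type} [Field κ] [Field C] [Algebra κ C] {g : Finset K → C} {b : ℕ}
    (hg : g ∈ Fil K C b) : ∀ ℓ : C →ₗ[κ] κ, (fun S => ℓ (g S)) ∈ Fil K κ b := by
  rw [Fil] at hg
  induction hg using Submodule.span_induction with
  | mem g hg =>
    obtain ⟨J, hJ, rfl⟩ := hg
    intro ℓ
    have : (fun S => ℓ (ind C J S)) = ℓ 1 • ind κ J := by
      funext S
      simp only [ind, Pi.smul_apply, smul_eq_mul]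
      split_ifs <;> simp
    rw [this]
    exact Submodule.smul_mem _ _ (ind_mem hJ)
  | zero =>
    intro ℓ
    have : (fun S => ℓ ((0 : Finset K → C) S)) = 0 := by funext S; simp
    rw [this]
    exact Submodule.zero_mem _
  | add f g _ _ hf hg =>
    intro ℓ
    have : (fun S => ℓ ((f + g) S)) = (fun S => ℓ (f S)) + (fun S => ℓ (g S)) := by
      funext S; simp
    rw [this]
    exact Submodule.add_mem _ (hf ℓ) (hg ℓ)
  | smul a g _ hg =>
    intro ℓ
    exact hg (ℓ ∘ₗ LinearMap.mulLeft κ a)

end

end Pool.Agent.H351R3.Log
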