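import Mathlib
import Pool.Agent.H351R3.Log.CubeInj

set_option autoImplicit false

/-!
# Squarefree polynomials in the new directions
-/

namespace Pool.Agent.H351R3.Log

open Finset Module MvPolynomial

section

variable {κ C : Type} [Field κ] [Field C] [Algebra κ C]

/-- Multiplication by `w`, from `V` to `C / V`. -/
def mulMap (V : Submodule κ C) (w : C) : V →ₗ[κ] C ⧸ V :=
  V.mkQ ∘ₗ (LinearMap.mulLeft κ w) ∘ₗ V.subtype

theorem mulMap_apply (V : Submodule κ C) (w : C) (v : V) : mulMap V w v = V.mkQ (w * v) := rfl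

/-- For `w` outside of the base field, `{v ∈ V : w v ∈ V}` has dimension at most `c`. -/
def KBd (V : Submodule κ C) (c : ℕ) : Prop :=
  ∀ w : C, (∀ a : κ, w ≠ algebraMap κ C a) → Module.rank κ (LinearMap.ker (mulMap V w)) ≤ c

/-- no nonlinear relation of degree at most `D` modulo `V` -/
def NLI {σ : Type} (V : Submodule κ C) (D : ℕ) (x : σ → C) : Prop :=
  ∀ P : MvPolynomial σ κ, P.totalDegree ≤ D → aeval x P ∈ V → P.totalDegree ≤ 1

variable {σ K : Type}

/-- exponents squarefree in the second kind of variables -/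
def SqSet (σ : Type) {K : Type} (A : Finset K) (d : ℕ) : Set (σ ⊕ K →₀ ℕ) :=
  {s | s.degree ≤ d ∧ (∀ k, s (Sum.inr k) ≤ 1) ∧ ∀ k, k ∉ A → s (Sum.inr k) = 0}

theorem SqSet_finite [Finite σ] [Finite K] (A : Finset K) (d : ℕ) : (SqSet σ A d).Finite :=
  (Finsupp.finite_of_degree_le (σ := σ ⊕ K) d).subset fun _ h => h.1

theorem SqSet_mono (A : Finset K) {d e : ℕ} (h : d ≤ e) : SqSet σ A d ⊆ SqSet σ A e :=
  fun _ hs => ⟨hs.1.trans h, hs.2⟩

variable (κ) in
/-- polynomials of degree `≤ d`, squarefree in the second kind of variables -/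
noncomputable abbrev Sq (σ : Type) {K : Type} (A : Finset K) (d : ℕ) :
    Submodule κ (MvPolynomial (σ ⊕ K) κ) := restrictSupport κ (SqSet σ A d)

theorem Sq_finite [Finite σ] [Finite K] (A : Finset K) (d : ℕ) : Module.Finite κ (Sq κ σ A d) := by
  have : Finite (SqSet σ A d) := (SqSet_finite A d).to_subtype
  exact Module.Finite.of_basis (basisRestrictSupport κ (SqSet σ A d))

theorem Sq_mono (A : Finset K) {d e : ℕ} (h : d ≤ e) : Sq κ σ A d ≤ Sq κ σ A e :=
  restrictSupport_mono κ (SqSet_mono A h)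

theorem totalDegree_le_iff_mem {τ : Type} (P : MvPolynomial τ κ) (d : ℕ) :
    P.totalDegree ≤ d ↔ ∀ s ∈ P.support, s.degree ≤ d := by
  rw [totalDegree, Finset.sup_le_iff]
  rfl

theorem Sq_totalDegree {A : Finset K} {d : ℕ} {P : MvPolynomial (σ ⊕ K) κ} (hP : P ∈ Sq κ σ A d) :
    P.totalDegree ≤ d := by
  rw [totalDegree_le_iff_mem]
  intro s hs
  exact (hP hs).1

theorem Sq_of_totalDegree {A : Finset K} {d e : ℕ} {P : MvPolynomial (σ ⊕ K) κ}
    (hP : P ∈ Sq κ σ A d) (he : P.totalDegree ≤ e) : P ∈ Sq κ σ A e := by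
  intro s hs
  exact ⟨(totalDegree_le_iff_mem P e).1 he s hs, (hP hs).2⟩

theorem C_mem_Sq (A : Finset K) (d : ℕ) (a : κ) : (MvPolynomial.C a : MvPolynomial (σ ⊕ K) κ) ∈ Sq κ σ A d := by
  rw [← monomial_zero', monomial_mem_restrictSupport]
  left
  refine ⟨by simp, fun k => by simp, fun k _ => by simp⟩

theorem Sq_split [DecidableEq K] {A : Finset K} {k : K} (d : ℕ)
    {P : MvPolynomial (σ ⊕ K) κ} (hP : P ∈ Sq κ σ (insert k A) (d + 1)) :
    ∃ P₀ ∈ Sq κ σ A (d + 1), ∃ P₁ ∈ Sq κ σ A d, P = P₀ + X (Sum.inr k) * P₁ := by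
  classical
  rw [Sq, restrictSupport_eq_span] at hP
  induction hP using Submodule.span_induction with
  | mem P hP =>
    obtain ⟨s, hs, rfl⟩ := hP
    by_cases h : s (Sum.inr k) = 0
    · refine ⟨monomial s 1, ?_, 0, Submodule.zero_mem _, by simp⟩
      rw [monomial_mem_restrictSupport]
      left
      refine ⟨hs.1, hs.2.1, fun l hl => ?_⟩
      by_cases hlk : l = k
      · rw [hlk]; exact h
      · exact hs.2.2 l (by rw [Finset.mem_insert]; tauto)
    · have h1 : s (Sum.inr k) = 1 := by
        have := hs.2.1 k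
        omega
      have h2 : Finsupp.single (Sum.inr k) 1 + s.erase (Sum.inr k) = s := by
        rw [← h1]; exact Finsupp.single_add_erase _ _
      refine ⟨0, Submodule.zero_mem _, monomial (s.erase (Sum.inr k)) 1, ?_, ?_⟩
      · rw [monomial_mem_restrictSupport]
        left
        refine ⟨?_, ?_, ?_⟩
        · have h3 := hs.1
          rw [← h2, map_add, Finsupp.degree_single] at h3
          omega
        · intro l
          rw [Finsupp.erase_apply]
          split_ifs
          · exact Nat.zero_le _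
          · exact hs.2.1 l
        · intro l hl
          rw [Finsupp.erase_apply]
          split_ifs with h4
          · rfl
          · exact hs.2.2 l (by
              rw [Finset.mem_insert]
              rintro (h5 | h5)
              · exact h4 (by rw [h5])
              · exact hl h5)
      · rw [zero_add, X, monomial_mul, h2, one_mul]
  | zero => exact ⟨0, Submodule.zero_mem _, 0, Submodule.zero_mem _, by simp⟩
  | add P Q _ _ hP hQ =>
    obtain ⟨P₀, h0, P₁, h1, rfl⟩ := hP
    obtain ⟨Q₀, g0, Q₁, g1, rfl⟩ := hQ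
    exact ⟨P₀ + Q₀, Submodule.add_mem _ h0 g0, P₁ + Q₁, Submodule.add_mem _ h1 g1, by ring⟩
  | smul a P _ hP =>
    obtain ⟨P₀, h0, P₁, h1, rfl⟩ := hP
    exact ⟨a • P₀, Submodule.smul_mem _ _ h0, a • P₁, Submodule.smul_mem _ _ h1, by
      rw [smul_add, mul_smul_comm]⟩

theorem aeval_update [DecidableEq (σ ⊕ K)] {A : Finset K} {k : K} (hk : k ∉ A) (d : ℕ)
    {P : MvPolynomial (σ ⊕ K) κ} (hP : P ∈ Sq κ σ A d) (z : σ ⊕ K → C) (v : C) :
    aeval (Function.update z (Sum.inr k) v) P = aeval z P := by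
  rw [aeval_def, aeval_def]
  apply eval₂_congr
  intro i s hi hs
  have h1 : s ∈ P.support := by rw [MvPolynomial.mem_support_iff]; exact hs
  have h2 := (hP h1).2.2 k hk
  rw [Function.update_of_ne]
  rintro rfl
  rw [Finsupp.mem_support_iff] at hi
  exact hi h2

/-- The two independence properties. -/
def QP (V : Submodule κ C) (D : ℕ) (A : Finset K) (z : σ ⊕ K → C) : Prop :=
  (∀ P ∈ Sq κ σ A D, aeval z P ∈ V → P.totalDegree ≤ 1) ∧
    (∀ P ∈ Sq κ σ A 1, aeval z P = 0 → P = 0)

/-- Nonconstant polynomials do not take values in the base field. -/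
theorem QP.not_const {V : Submodule κ C} {D : ℕ} {A : Finset K} {z : σ ⊕ K → C}
    (h : QP V D A z) {P : MvPolynomial (σ ⊕ K) κ} (hP : P ∈ Sq κ σ A D) (a : κ)
    (ha : aeval z P = algebraMap κ C a) : P = MvPolynomial.C a := by
  have h0 : aeval z (P - MvPolynomial.C a) = 0 := by
    rw [map_sub, ha, aeval_C, sub_self]
  have h1 : P - MvPolynomial.C a ∈ Sq κ σ A D := Submodule.sub_mem _ hP (C_mem_Sq A D a)
  have h2 := h.1 _ h1 (by rw [h0]; exact V.zero_mem)
  have h3 := h.2 _ (Sq_of_totalDegree h1 h2) h0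
  exact sub_eq_zero.1 h3

theorem step [Finite σ] [Finite K] [DecidableEq K] [DecidableEq (σ ⊕ K)] (d : ℕ) (c : ℕ) (A : Finset K)
    (k : K) (hk : k ∉ A) :
    ∃ N : ℕ, ∀ (V : Submodule κ C), KBd V c → ∀ z : σ ⊕ K → C, QP V (d + 2) A z → ∀ (ι : Type) (w : ι → V) (F : Finset ι), LinearIndepOn κ w (F : Set ι) →
      N ≤ F.card → ∃ T ⊆ F,
        QP V (d + 2) (insert k A) (Function.update z (Sum.inr k) ((∑ i ∈ T, w i : V) : C)) := by
  classical
  have := Sq_finite (κ := κ) (σ := σ) A (d + 1)
  have := Sq_finite (κ := κ) (σ := σ) A (d + 2)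
  set g := finrank κ (Sq κ σ A (d + 2)) with hg
  obtain ⟨N, hN⟩ := cube_inj_space (κ := κ) (Sq κ σ A (d + 1)) (c + g)
  refine ⟨N, fun V hV z hQP ι w F hw hF => ?_⟩
  set ev : Sq κ σ A (d + 2) →ₗ[κ] C := (aeval z).toLinearMap ∘ₗ (Sq κ σ A (d + 2)).subtype with hev
  set G : Submodule κ C := LinearMap.range ev with hG
  have hGr : Module.rank κ G ≤ g := by
    refine (rank_range_le ev).trans ?_
    rw [hg, Module.finrank_eq_rank]
  set G' : Submodule κ (C ⧸ V) := G.map V.mkQ with hG'
  have hG'r : Module.rank κ G' ≤ g := (rank_map_le _ _).trans hGr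
  have hmemG : ∀ P ∈ Sq κ σ A (d + 2), aeval z P ∈ G := fun P hP => ⟨⟨P, hP⟩, rfl⟩
  -- the bilinear map
  set Φ : Sq κ σ A (d + 1) →ₗ[κ] V →ₗ[κ] ((C ⧸ V) ⧸ G') × (C ⧸ G) :=
    LinearMap.mk₂ κ (fun P v => (G'.mkQ (V.mkQ (aeval z (P : MvPolynomial (σ ⊕ K) κ) * (v : C))),
      G.mkQ (constantCoeff (P : MvPolynomial (σ ⊕ K) κ) • (v : C))))
      (by
        intro P Q v
        simp only [Submodule.coe_add, map_add, add_mul, add_smul, Prod.mk_add_mk])
      (by
        intro a P v
        rw [Prod.smul_mk, ← map_smul, ← map_smul, ← map_smul]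
        refine Prod.ext (congrArg (fun t => G'.mkQ (V.mkQ t)) ?_) (congrArg G.mkQ ?_)
        · rw [Submodule.coe_smul, map_smul, smul_mul_assoc]
        · rw [Submodule.coe_smul, smul_eq_C_mul, map_mul, constantCoeff_C, smul_smul])
      (by
        intro P v w
        simp only [Submodule.coe_add, map_add, mul_add, smul_add, Prod.mk_add_mk])
      (by
        intro a P v
        rw [Prod.smul_mk, ← map_smul, ← map_smul, ← map_smul]
        refine Prod.ext (congrArg (fun t => G'.mkQ (V.mkQ t)) ?_) (congrArg G.mkQ ?_)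
        · rw [Submodule.coe_smul, mul_smul_comm]
        · rw [Submodule.coe_smul, smul_comm]) with hΦ
  have hΦ_apply : ∀ P v, Φ P v = (G'.mkQ (V.mkQ (aeval z (P : MvPolynomial (σ ⊕ K) κ) * (v : C))),
      G.mkQ (constantCoeff (P : MvPolynomial (σ ⊕ K) κ) • (v : C))) := fun P v => rfl
  have hker : ∀ P ≠ 0, Module.rank κ (LinearMap.ker (Φ P)) ≤ ((c + g : ℕ) : Cardinal) := by
    intro P hP
    by_cases hc : ∃ a : κ, aeval z (P : MvPolynomial (σ ⊕ K) κ) = algebraMap κ C a
    · obtain ⟨a, ha⟩ := hc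
      have h1 := hQP.not_const (Sq_mono A (by omega) P.2) a ha
      have ha0 : a ≠ 0 := by
        intro h0
        apply hP
        apply Subtype.ext
        rw [h1, h0]; simp
      have h2 : Module.rank κ (LinearMap.ker (Φ P)) ≤ Module.rank κ G := by
        let j : LinearMap.ker (Φ P) →ₗ[κ] G :=
          { toFun := fun v => ⟨((v : V) : C), by
              have hv := v.2
              rw [LinearMap.mem_ker, hΦ_apply] at hv
              have hv2 := (Prod.mk_eq_zero.1 hv).2
              rw [h1, constantCoeff_C, Submodule.mkQ_apply, Submodule.Quotient.mk_eq_zero] at hv2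
              have := G.smul_mem a⁻¹ hv2
              rwa [smul_smul, inv_mul_cancel₀ ha0, one_smul] at this⟩
            map_add' := fun _ _ => rfl
            map_smul' := fun _ _ => rfl }
        apply LinearMap.rank_le_of_injective j
        intro v v' h
        apply Subtype.ext
        apply Subtype.ext
        exact congrArg (fun u : G => (u : C)) h
      refine h2.trans (hGr.trans ?_)
      exact_mod_cast Nat.le_add_left g c
    · push Not at hc
      have h1 := hV _ hc
      have h2 := rank_ker_mkQ _ G' c g h1 hG'r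
      refine le_trans (Submodule.rank_mono ?_) h2
      intro v hv
      rw [LinearMap.mem_ker, hΦ_apply] at hv
      rw [LinearMap.mem_ker, LinearMap.comp_apply, mulMap_apply]
      exact (Prod.mk_eq_zero.1 hv).1
  obtain ⟨T, hT, hinj⟩ := hN V _ Φ hker ι w F hw hF 0
  refine ⟨T, hT, ?_⟩
  rw [zero_add] at hinj
  set δ : V := ∑ i ∈ T, w i with hδ
  have hL : ∀ a : κ, a • (δ : C) ∈ G → a = 0 := by
    intro a ha
    have h1 := hinj ⟨MvPolynomial.C a, C_mem_Sq A (d + 1) a⟩ (by
      rw [hΦ_apply]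
      simp only [aeval_C, constantCoeff_C]
      rw [Prod.mk_eq_zero]
      constructor
      · rw [← Algebra.smul_def, map_smul]
        have : V.mkQ (δ : C) = 0 := by
          rw [Submodule.mkQ_apply, Submodule.Quotient.mk_eq_zero]; exact δ.2
        rw [this, smul_zero, map_zero]
      · rw [Submodule.mkQ_apply, Submodule.Quotient.mk_eq_zero]
        exact ha)
    have h2 := congrArg (fun P : Sq κ σ A (d + 1) => (P : MvPolynomial (σ ⊕ K) κ)) h1
    simpa using h2
  have hQ : ∀ P ∈ Sq κ σ A (d + 1), (∃ y ∈ G, aeval z P * (δ : C) - y ∈ V) →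
      P = MvPolynomial.C (constantCoeff P) := by
    rintro P hP ⟨y, hy, hyV⟩
    have h1 := hinj ⟨P - MvPolynomial.C (constantCoeff P),
      Submodule.sub_mem _ hP (C_mem_Sq A (d + 1) _)⟩ (by
      rw [hΦ_apply]
      rw [Prod.mk_eq_zero]
      constructor
      · rw [Submodule.mkQ_apply, Submodule.Quotient.mk_eq_zero, hG', Submodule.mem_map]
        refine ⟨y, hy, ?_⟩
        rw [← sub_eq_zero, ← map_sub, Submodule.mkQ_apply, Submodule.Quotient.mk_eq_zero]
        rw [map_sub, aeval_C, sub_mul]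
        have h2 : y - (aeval z P * (δ : C) - algebraMap κ C (constantCoeff P) * (δ : C)) =
            constantCoeff P • (δ : C) - (aeval z P * (δ : C) - y) := by
          rw [Algebra.smul_def]; ring
        rw [h2]
        exact V.sub_mem (V.smul_mem _ δ.2) hyV
      · simp)
    have h2 := congrArg (fun P : Sq κ σ A (d + 1) => (P : MvPolynomial (σ ⊕ K) κ)) h1
    exact sub_eq_zero.1 h2
  constructor
  · intro P hP hPV
    obtain ⟨P₀, h0, P₁, h1, rfl⟩ := Sq_split (d + 1) hP
    rw [map_add, map_mul, aeval_X, Function.update_self, aeval_update hk _ h0,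
      aeval_update hk _ h1] at hPV
    have h2 := hQ P₁ h1 ⟨-aeval z P₀, G.neg_mem (hmemG P₀ h0), by
      have : aeval z P₁ * (δ : C) - -aeval z P₀ = aeval z P₀ + (δ : C) * aeval z P₁ := by ring
      rw [this]; exact hPV⟩
    set a := constantCoeff P₁ with ha
    have h3 : aeval z P₀ ∈ V := by
      have h4 : aeval z P₀ = (aeval z P₀ + (δ : C) * aeval z P₁) - a • (δ : C) := by
        rw [h2, aeval_C, Algebra.smul_def]; ring
      rw [h4]
      exact V.sub_mem hPV (V.smul_mem _ δ.2)
    have h5 := hQP.1 P₀ h0 h3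
    rw [h2]
    refine (totalDegree_add _ _).trans (max_le h5 ?_)
    refine (totalDegree_mul _ _).trans ?_
    rw [totalDegree_C, totalDegree_X]
  · intro P hP hP0
    obtain ⟨P₀, h0, P₁, h1, rfl⟩ := Sq_split 0 hP
    rw [map_add, map_mul, aeval_X, Function.update_self, aeval_update hk _ h0,
      aeval_update hk _ h1] at hP0
    have h2 : P₁ = MvPolynomial.C (constantCoeff P₁) := by
      have := Sq_totalDegree h1
      rw [totalDegree_eq_zero_iff_eq_C.1 (Nat.le_zero.1 this)]
      simp
    set a := constantCoeff P₁ with ha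
    have h3 : a = 0 := by
      apply hL
      have h4 : a • (δ : C) = - aeval z P₀ := by
        rw [h2, aeval_C] at hP0
        rw [Algebra.smul_def]
        have : (algebraMap κ C) a * (δ : C) = (aeval z P₀ + (δ : C) * (algebraMap κ C) a) - aeval z P₀ := by ring
        rw [this, hP0, zero_sub]
      rw [h4]
      exact G.neg_mem (hmemG P₀ (Sq_mono A (by omega) h0))
    rw [h3, C_0] at h2
    rw [h2, map_zero, mul_zero, add_zero] at hP0
    rw [h2, mul_zero, add_zero]
    exact hQP.2 P₀ h0 hP0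

theorem Sq_empty {d : ℕ} {P : MvPolynomial (σ ⊕ K) κ} (hP : P ∈ Sq κ σ (∅ : Finset K) d) :
    ∃ P' : MvPolynomial σ κ, P = rename Sum.inl P' ∧ P'.totalDegree ≤ d := by
  classical
  rw [Sq, restrictSupport_eq_span] at hP
  induction hP using Submodule.span_induction with
  | mem P hP =>
    obtain ⟨s, hs, rfl⟩ := hP
    refine ⟨monomial (s.comapDomain Sum.inl Sum.inl_injective.injOn) 1, ?_, ?_⟩
    · rw [rename_monomial, Finsupp.mapDomain_comapDomain _ Sum.inl_injective]
      intro i hi
      rcases i with i | k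
      · exact ⟨i, rfl⟩
      · exfalso
        rw [Finset.mem_coe, Finsupp.mem_support_iff] at hi
        exact hi (hs.2.2 k (Finset.notMem_empty k))
    · refine (totalDegree_monomial_le _ _).trans ?_
      exact (Finsupp.degree_comapDomain_le_of_canonicallyOrderedAdd _).trans hs.1
  | zero => exact ⟨0, by simp, by simp⟩
  | add P Q _ _ hP hQ =>
    obtain ⟨P', rfl, hP'⟩ := hP
    obtain ⟨Q', rfl, hQ'⟩ := hQ
    exact ⟨P' + Q', by rw [map_add], (totalDegree_add _ _).trans (max_le hP' hQ')⟩
  | smul a P _ hP =>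
    obtain ⟨P', rfl, hP'⟩ := hP
    exact ⟨a • P', by rw [map_smul], (totalDegree_smul_le _ _).trans hP'⟩

theorem QP_empty (V : Submodule κ C) (d : ℕ) (x : σ → C) (hx : NLI V (d + 2) x) (y : K → C) :
    QP V (d + 2) (∅ : Finset K) (Sum.elim x y) := by
  constructor
  · intro P hP hV
    obtain ⟨P', rfl, hP'⟩ := Sq_empty hP
    rw [aeval_rename, Sum.elim_comp_inl] at hV
    exact (totalDegree_rename_le _ _).trans (hx P' hP' hV)
  · intro P hP h0
    obtain ⟨P', rfl, hP'⟩ := Sq_empty hP
    rw [aeval_rename, Sum.elim_comp_inl] at h0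
    by_contra hne
    have hne' : P' ≠ 0 := by rintro rfl; exact hne (map_zero _)
    have h2 := hx (P' * P') ((totalDegree_mul _ _).trans (by omega)) (by
      rw [map_mul, h0, mul_zero]; exact V.zero_mem)
    rw [totalDegree_mul_of_isDomain hne' hne'] at h2
    have h3 : P'.totalDegree = 0 := by omega
    rw [totalDegree_eq_zero_iff_eq_C] at h3
    rw [h3, aeval_C] at h0
    apply hne'
    rw [h3, (map_eq_zero_iff (algebraMap κ C) (algebraMap κ C).injective).1 h0, C_0]

/-- **Independent directions.** -/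
theorem sf [Finite σ] [Finite K] (d : ℕ) (c : ℕ) (A : Finset K) :
    ∃ N : ℕ, ∀ (V : Submodule κ C), KBd V c → ∀ x : σ → C, NLI V (d + 2) x →
      ∀ (ι : Type) (w : ι → V) (F : K → Finset ι), (∀ k, LinearIndepOn κ w (F k : Set ι)) →
      (∀ k, N ≤ (F k).card) → ∃ T : K → Finset ι, (∀ k, T k ⊆ F k) ∧
        QP V (d + 2) A (Sum.elim x (fun k => ((∑ i ∈ T k, w i : V) : C))) := by
  classical
  induction A using Finset.induction_on with
  | empty =>
    refine ⟨0, fun V _ x hx ι w F _ _ => ⟨fun _ => ∅, fun _ => Finset.empty_subset _, ?_⟩⟩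
    exact QP_empty V d x hx _
  | insert k A hk ih =>
    obtain ⟨N₁, hN₁⟩ := ih
    obtain ⟨N₂, hN₂⟩ := step (κ := κ) (C := C) (σ := σ) d c A k hk
    refine ⟨max N₁ N₂, fun V hV x hx ι w F hw hF => ?_⟩
    obtain ⟨T, hT, hQP⟩ := hN₁ V hV x hx ι w F hw (fun k => le_trans (le_max_left _ _) (hF k))
    obtain ⟨T', hT', hQP'⟩ := hN₂ V hV _ hQP ι w (F k) (hw k) (le_trans (le_max_right _ _) (hF k))
    refine ⟨Function.update T k T', ?_, ?_⟩
    · intro l
      by_cases hl : l = k
      · subst hl; rw [Function.update_self]; exact hT'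
      · rw [Function.update_of_ne hl]; exact hT l
    · convert hQP' using 1
      funext i
      rcases i with i | l
      · rw [Function.update_of_ne (by simp)]; rfl
      · by_cases hl : l = k
        · subst hl; simp
        · rw [Function.update_of_ne (by simpa using hl)]
          simp [hl]

end

end Pool.Agent.H351R3.Log
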