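import Mathlib
import Pool.Agent.H351R3.Log.Sq
import Pool.Agent.H351R3.Log.Fil

set_option autoImplicit false

/-!
# The key proposition: good points of cubes
-/

namespace Pool.Agent.H351R3.Log

open Finset Module MvPolynomial

section

variable {κ C : Type} [Field κ] [Field C] [Algebra κ C] {σ K : Type}

/-- coefficient functionals -/
theorem exists_functional [DecidableEq K] [Fintype K] (V : Submodule κ C) (D : ℕ)
    (z : σ ⊕ K → C)
    (hQ : ∀ P ∈ Sq κ σ (univ : Finset K) D, aeval z P ∈ V → P.totalDegree ≤ 1)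
    (s : σ ⊕ K →₀ ℕ) (hs : 2 ≤ s.degree) :
    ∃ ℓ : C →ₗ[κ] κ, (∀ v ∈ V, ℓ v = 0) ∧
      ∀ P ∈ Sq κ σ (univ : Finset K) D, ℓ (aeval z P) = coeff s P := by
  set f : Sq κ σ (univ : Finset K) D →ₗ[κ] C ⧸ V :=
    V.mkQ ∘ₗ (aeval z).toLinearMap ∘ₗ (Sq κ σ (univ : Finset K) D).subtype with hf
  set g : Sq κ σ (univ : Finset K) D →ₗ[κ] κ :=
    (lcoeff κ s) ∘ₗ (Sq κ σ (univ : Finset K) D).subtype with hg
  have h1 : g ∈ LinearMap.range f.dualMap := by
    rw [LinearMap.range_dualMap_eq_dualAnnihilator_ker, Submodule.mem_dualAnnihilator]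
    intro P hP
    rw [LinearMap.mem_ker] at hP
    have h2 : aeval z (P : MvPolynomial (σ ⊕ K) κ) ∈ V := by
      rw [hf, LinearMap.comp_apply, Submodule.mkQ_apply, Submodule.Quotient.mk_eq_zero] at hP
      exact hP
    have h3 := hQ P P.2 h2
    rw [hg]
    change coeff s (P : MvPolynomial (σ ⊕ K) κ) = 0
    by_contra hne
    have h4 := (totalDegree_le_iff_mem _ _).1 h3 s (MvPolynomial.mem_support_iff.2 hne)
    omega
  obtain ⟨h, hh⟩ := h1
  refine ⟨h ∘ₗ V.mkQ, ?_, ?_⟩
  · intro v hv
    have : V.mkQ v = 0 := by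
      rw [Submodule.mkQ_apply, Submodule.Quotient.mk_eq_zero]; exact hv
    rw [LinearMap.comp_apply, this, map_zero]
  · intro P hP
    have := congrArg (fun φ : Sq κ σ (univ : Finset K) D →ₗ[κ] κ => φ ⟨P, hP⟩) hh
    exact this

/-- the exponent of `x^α δ_J` -/
noncomputable def ex (α : σ →₀ ℕ) (J : Finset K) : σ ⊕ K →₀ ℕ :=
  α.mapDomain Sum.inl + ∑ k ∈ J, Finsupp.single (Sum.inr k) 1

theorem ex_inl (α : σ →₀ ℕ) (J : Finset K) (i : σ) : ex α J (Sum.inl i) = α i := by
  classical
  rw [ex, Finsupp.add_apply, Finsupp.mapDomain_apply Sum.inl_injective, Finsupp.finsetSum_apply,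
    Finset.sum_eq_zero, add_zero]
  intro k _
  rw [Finsupp.single_apply, if_neg (by simp)]

theorem ex_inr [DecidableEq K] (α : σ →₀ ℕ) (J : Finset K) (k : K) :
    ex α J (Sum.inr k) = if k ∈ J then 1 else 0 := by
  classical
  rw [ex, Finsupp.add_apply, Finsupp.mapDomain_of_notMem_range _ _ (by simp),
    Finsupp.finsetSum_apply, zero_add]
  simp only [Finsupp.single_apply, Sum.inr.injEq]
  rw [Finset.sum_ite_eq']

theorem ex_degree (α : σ →₀ ℕ) (J : Finset K) : (ex α J).degree = α.degree + J.card := by
  rw [ex, map_add, Finsupp.degree_mapDomain, map_sum]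
  simp

theorem ex_inj [DecidableEq K] {α α' : σ →₀ ℕ} {J J' : Finset K} (h : ex α J = ex α' J') :
    α = α' ∧ J = J' := by
  constructor
  · ext i
    rw [← ex_inl α J i, h, ex_inl]
  · ext k
    have := DFunLike.congr_fun h (Sum.inr k)
    rw [ex_inr, ex_inr] at this
    by_cases h1 : k ∈ J <;> by_cases h2 : k ∈ J' <;> simp_all

theorem ex_mem [DecidableEq K] [Fintype K] (α : σ →₀ ℕ) (J : Finset K) (D : ℕ)
    (h : α.degree + J.card ≤ D) : (monomial (ex α J) 1 : MvPolynomial (σ ⊕ K) κ) ∈ Sq κ σ univ D := by
  rw [monomial_mem_restrictSupport]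
  left
  refine ⟨by rw [ex_degree]; exact h, ?_, fun k hk => absurd (mem_univ k) hk⟩
  intro k
  rw [ex_inr]
  split_ifs <;> simp

theorem ex_aeval (z : σ ⊕ K → C) (α : σ →₀ ℕ) (J : Finset K) :
    aeval z (monomial (ex α J) 1 : MvPolynomial (σ ⊕ K) κ) =
      aeval (z ∘ Sum.inl) (monomial α 1 : MvPolynomial σ κ) * ∏ k ∈ J, z (Sum.inr k) := by
  have h1 : (monomial (ex α J) 1 : MvPolynomial (σ ⊕ K) κ) =
      rename Sum.inl (monomial α 1 : MvPolynomial σ κ) * ∏ k ∈ J, X (Sum.inr k) := by
    rw [rename_monomial, ex]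
    have : (∏ k ∈ J, X (Sum.inr k) : MvPolynomial (σ ⊕ K) κ) =
        monomial (∑ k ∈ J, Finsupp.single (Sum.inr k) 1) 1 := by
      rw [monomial_sum_one]
      rfl
    rw [this, monomial_mul, one_mul]
  rw [h1, map_mul, aeval_rename, map_prod]
  simp only [aeval_X]

/-- index set of the monomials involving the new variable -/
abbrev Idx (σ : Type) (D : ℕ) := {s : Option σ →₀ ℕ // 1 ≤ s none ∧ 2 ≤ s.degree ∧ s.degree ≤ D}

noncomputable instance (σ : Type) [Finite σ] (D : ℕ) : Fintype (Idx σ D) :=
  ((Finsupp.finite_of_degree_le (σ := Option σ) D).subset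
    (fun _ h => h.2.2 : {s : Option σ →₀ ℕ | 1 ≤ s none ∧ 2 ≤ s.degree ∧ s.degree ≤ D} ⊆ _)).fintype

/-- index set of the new directions -/
abbrev Dir (σ : Type) (D : ℕ) := Σ p : Idx σ D, Fin (p.1 none)

theorem degree_option [Fintype σ] (s : Option σ →₀ ℕ) : s.degree = s none + s.some.degree := by
  rw [Finsupp.degree_eq_sum, Finsupp.degree_eq_sum, Fintype.sum_option]
  simp only [Finsupp.some_apply]

theorem aeval_option [Fintype σ] (y : C) (x : σ → C) (s : Option σ →₀ ℕ) :
    aeval (fun o : Option σ => o.elim y x) (monomial s 1 : MvPolynomial (Option σ) κ) =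
      aeval x (monomial s.some 1 : MvPolynomial σ κ) * y ^ (s none) := by
  rw [aeval_monomial, aeval_monomial, Finsupp.prod_fintype _ _ (by simp),
    Finsupp.prod_fintype _ _ (by simp), Fintype.prod_option]
  simp only [Finsupp.some_apply, Option.elim, map_one, one_mul]
  ring

theorem prod_ind {K' E I : Type} [DecidableEq K'] [CommRing E] [DecidableEq I] (s : Finset I)
    (J : I → Finset K') :
    ∏ p ∈ s, ind E (J p) = ind E (s.biUnion J) := by
  induction s using Finset.induction_on with
  | empty => rw [Finset.prod_empty, Finset.biUnion_empty, ind_empty]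
  | insert a s ha ih => rw [Finset.prod_insert ha, ih, ind_mul, Finset.biUnion_insert]

/-- **Determinant argument**: if all squarefree monomials in the directions `δ` are independent
modulo `V`, the cube `β + ∑_{k ∈ S} δ_k` contains a point `y` such that `x, y` satisfy no nonlinear
relation of degree `≤ D` modulo `V`. -/
theorem good_point [CharZero κ] [Fintype σ] {D : ℕ} (V : Submodule κ C) (x : σ → C)
    (hx : NLI V D x) (δ : Dir σ D → C) (hδ : ∀ k, δ k ∈ V)
    (hQ : ∀ P ∈ Sq κ σ (univ : Finset (Dir σ D)) D, aeval (Sum.elim x δ) P ∈ V → P.totalDegree ≤ 1)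
    (β : C) (hβ : β ∈ V) :
    ∃ S : Finset (Dir σ D), NLI V D (fun o : Option σ => o.elim (β + ∑ k ∈ S, δ k) x) := by
  classical
  set z : σ ⊕ Dir σ D → C := Sum.elim x δ with hz
  set b : Idx σ D → ℕ := fun p => p.1 none with hb
  set J : Idx σ D → Finset (Dir σ D) := fun p => univ.filter (fun k => k.1 = p) with hJ
  have hJcard : ∀ p, (J p).card = b p := by
    intro p
    have h1 : J p = (univ : Finset (Fin (p.1 none))).map (Function.Embedding.sigmaMk p) := by
      ext ⟨q, i⟩
      simp only [hJ, Finset.mem_filter, Finset.mem_univ, true_and, Finset.mem_map,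
        Function.Embedding.sigmaMk_apply]
      constructor
      · rintro rfl; exact ⟨i, rfl⟩
      · rintro ⟨j, h⟩
        exact (congrArg Sigma.fst h).symm
    rw [h1, Finset.card_map, Finset.card_univ, Fintype.card_fin]
  have hexdeg : ∀ p : Idx σ D, (ex p.1.some (J p)).degree = p.1.degree := by
    intro p
    rw [ex_degree, hJcard, degree_option p.1, add_comm]
  choose ℓ hℓV hℓ using fun p : Idx σ D => exists_functional V D z hQ (ex p.1.some (J p))
    (by rw [hexdeg]; exact p.2.2.1)
  -- the values of the functionals on squarefree monomials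
  have hval : ∀ (p : Idx σ D) (α : σ →₀ ℕ) (J' : Finset (Dir σ D)), α.degree + J'.card ≤ D →
      ℓ p (aeval x (monomial α 1 : MvPolynomial σ κ) * ∏ k ∈ J', δ k) =
        if ex α J' = ex p.1.some (J p) then 1 else 0 := by
    intro p α J' h
    have h1 := hℓ p _ (ex_mem (κ := κ) α J' D h)
    rw [ex_aeval, hz, Sum.elim_comp_inl, coeff_monomial] at h1
    exact h1
  set m : Idx σ D → C := fun q => aeval x (monomial q.1.some 1 : MvPolynomial σ κ) with hm
  set A : Matrix (Idx σ D) (Idx σ D) (Finset (Dir σ D) → κ) :=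
    fun p q => fun S => ℓ p (m q * pt β δ S ^ b q) with hA
  set e : Idx σ D → Finset (Dir σ D) → κ := fun q => ((b q).factorial : κ) • ind κ (J q) with he
  have hlead : ∀ p q, A p q - (if p = q then e q else 0) ∈ Fil (Dir σ D) κ (b q) := by
    intro p q
    have h1 := Submodule.smul_mem _ (m q) (pow_lead β δ (b q))
    have h2 := Fil_functional h1 (ℓ p)
    convert h2 using 1
    funext S
    rw [Pi.sub_apply, Pi.smul_apply, Pi.sub_apply, Pi.smul_apply, Pi.pow_apply, smul_eq_mul, mul_sub,
      map_sub]
    congr 1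
    -- the leading term
    have h3 : m q * ((b q).factorial : C) • top δ (b q) S =
        ∑ J' ∈ powersetCard (b q) univ, ((b q).factorial : κ) •
          ((if J' ⊆ S then (1 : κ) else 0) • (m q * ∏ k ∈ J', δ k)) := by
      rw [top, Finset.sum_apply, Finset.smul_sum, Finset.mul_sum]
      apply Finset.sum_congr rfl
      intro J' _
      rw [Pi.smul_apply, ind, Algebra.smul_def ((b q).factorial : κ), map_natCast]
      split_ifs <;> simp <;> ring
    rw [h3, map_sum]
    have h4 : ∀ J' ∈ powersetCard (b q) (univ : Finset (Dir σ D)),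
        ℓ p (((b q).factorial : κ) • ((if J' ⊆ S then (1 : κ) else 0) • (m q * ∏ k ∈ J', δ k))) =
        ((b q).factorial : κ) * ((if J' ⊆ S then (1 : κ) else 0) *
          (if ex q.1.some J' = ex p.1.some (J p) then 1 else 0)) := by
      intro J' hJ'
      rw [Finset.mem_powersetCard] at hJ'
      rw [map_smul, map_smul, hval p q.1.some J' (by
        rw [hJ'.2, add_comm]
        have := q.2.2.2
        rw [degree_option] at this
        exact this), smul_eq_mul, smul_eq_mul]
    rw [Finset.sum_congr rfl h4]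
    by_cases hpq : p = q
    · subst hpq
      rw [if_pos rfl, he]
      simp only [Pi.smul_apply, ind, smul_eq_mul]
      rw [Finset.sum_eq_single (J p)]
      · rw [if_pos rfl, mul_one]
      · intro J' _ hne
        rw [if_neg (fun h => hne (ex_inj h).2), mul_zero, mul_zero]
      · intro h
        exfalso
        apply h
        rw [Finset.mem_powersetCard]
        exact ⟨Finset.subset_univ _, hJcard p⟩
    · rw [if_neg hpq, Pi.zero_apply]
      symm
      apply Finset.sum_eq_zero
      intro J' hJ'
      rw [Finset.mem_powersetCard] at hJ'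
      have hne : ¬ (ex q.1.some J' = ex p.1.some (J p)) := by
        intro h
        obtain ⟨h5, h6⟩ := ex_inj h
        apply hpq
        apply Subtype.ext
        rw [← Finsupp.optionElim_some p.1, ← Finsupp.optionElim_some q.1, h5]
        congr 1
        have h7 := hJ'.2
        rw [h6, hJcard] at h7
        exact h7
      rw [if_neg hne, mul_zero, mul_zero]
  have hdet := det_lead b A e (by
    intro j
    apply Submodule.smul_mem
    apply ind_mem
    rw [hJcard]
    exact Nat.lt_succ_self _) (by
    intro j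
    have := hlead j j
    rwa [if_pos rfl] at this) (by
    intro i j hij
    have := hlead i j
    rwa [if_neg hij, sub_zero] at this)
  have hsum : ∑ j, b j = Fintype.card (Dir σ D) := by
    rw [Fintype.card_sigma]
    simp only [Fintype.card_fin, hb]
  have hprod : ∏ j, e j = (∏ j, ((b j).factorial : κ)) • ind κ (univ : Finset (Dir σ D)) := by
    have h1 : (univ : Finset (Dir σ D)) = univ.biUnion J := by
      ext k
      simp [hJ]
    rw [h1, ← prod_ind, he, Finset.prod_smul]
  rw [hsum, hprod] at hdet
  obtain ⟨S, hS⟩ := exists_ne_zero _ (Finset.prod_ne_zero_iff.2 fun j _ => by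
    exact_mod_cast Nat.factorial_ne_zero _) hdet
  have hdetS : (A.map (fun f => f S)).det ≠ 0 := by
    have h1 := RingHom.map_det (Pi.evalRingHom (fun _ : Finset (Dir σ D) => κ) S) A
    rw [Pi.evalRingHom_apply] at h1
    rw [h1] at hS
    exact hS
  refine ⟨S, ?_⟩
  intro P hP hPV
  set y : C := β + ∑ k ∈ S, δ k with hy
  have hyV : y ∈ V := V.add_mem hβ (V.sum_mem fun k _ => hδ k)
  have hdegP := (totalDegree_le_iff_mem P D).1 hP
  -- expansion
  have hexp : ∀ Q : MvPolynomial (Option σ) κ, aeval (fun o : Option σ => o.elim y x) Q =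
      ∑ s ∈ Q.support, coeff s Q • (aeval x (monomial s.some 1 : MvPolynomial σ κ) * y ^ (s none)) := by
    intro Q
    conv_lhs => rw [Q.as_sum, map_sum]
    apply Finset.sum_congr rfl
    intro s _
    rw [← aeval_option (κ := κ) y x s, ← map_smul, smul_monomial, smul_eq_mul, mul_one]
  rw [hexp] at hPV
  -- low degree monomials
  have hlow : ∀ s : Option σ →₀ ℕ, 1 ≤ s none → s.degree ≤ 1 →
      aeval x (monomial s.some 1 : MvPolynomial σ κ) * y ^ (s none) = y := by
    intro s h1 h2
    rw [degree_option] at h2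
    have h3 : s none = 1 := by omega
    have h4 : s.some.degree = 0 := by omega
    rw [Finsupp.degree_eq_zero_iff] at h4
    rw [h3, h4, pow_one]
    have : (monomial 0 1 : MvPolynomial σ κ) = 1 := rfl
    rw [this, map_one, one_mul]
  -- the functionals on the monomials
  have hfun : ∀ p : Idx σ D, ∑ q : Idx σ D, coeff q.1 P * A p q S = 0 := by
    intro p
    have h1 := hℓV p _ hPV
    rw [map_sum] at h1
    simp only [map_smul, smul_eq_mul] at h1
    rw [← h1]
    symm
    have h2 : ∀ s ∈ P.support, ¬ (1 ≤ s none ∧ 2 ≤ s.degree ∧ s.degree ≤ D) →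
        coeff s P * ℓ p (aeval x (monomial s.some 1 : MvPolynomial σ κ) * y ^ (s none)) = 0 := by
      intro s hs hns
      have hsD := hdegP s hs
      by_cases h3 : s none = 0
      · have h4 := hval p s.some ∅ (by
          rw [Finset.card_empty, add_zero]
          rw [degree_option] at hsD
          omega)
        rw [Finset.prod_empty, mul_one, if_neg] at h4
        · rw [h3, pow_zero, mul_one, h4, mul_zero]
        · intro h5
          have h6 := (ex_inj h5).2
          have h7 := hJcard p
          rw [← h6, Finset.card_empty] at h7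
          have h8 := p.2.1
          rw [hb] at h7
          simp only at h7
          omega
      · have h5 : s.degree ≤ 1 := by
          by_contra h6
          exact hns ⟨by omega, by omega, hsD⟩
        rw [hlow s (by omega) h5, hℓV p y hyV, mul_zero]
    have h3 : ∑ s ∈ P.support, coeff s P *
          ℓ p (aeval x (monomial s.some 1 : MvPolynomial σ κ) * y ^ (s none)) =
        ∑ s ∈ P.support.filter (fun s => 1 ≤ s none ∧ 2 ≤ s.degree ∧ s.degree ≤ D), coeff s P *
          ℓ p (aeval x (monomial s.some 1 : MvPolynomial σ κ) * y ^ (s none)) := by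
      rw [Finset.sum_filter_of_ne]
      intro s hs hne
      by_contra hcon
      exact hne (h2 s hs hcon)
    rw [h3, ← Finset.sum_subtype_eq_sum_filter]
    apply Finset.sum_subset (Finset.subset_univ _)
    intro q _ hq
    rw [Finset.mem_subtype, MvPolynomial.notMem_support_iff] at hq
    rw [hq, zero_mul]
  have hcoef : ∀ q : Idx σ D, coeff q.1 P = 0 := by
    have h1 := Matrix.eq_zero_of_mulVec_eq_zero hdetS (v := fun q : Idx σ D => coeff q.1 P) (by
      funext p
      rw [Matrix.mulVec, dotProduct, Pi.zero_apply, ← hfun p]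
      apply Finset.sum_congr rfl
      intro q _
      rw [Matrix.map_apply, mul_comm])
    intro q
    exact congrFun h1 q
  have hnone : ∀ s ∈ P.support, 1 ≤ s none → s.degree ≤ 1 := by
    intro s hs h1
    by_contra h2
    exact (MvPolynomial.mem_support_iff.1 hs) (hcoef ⟨s, h1, by omega, hdegP s hs⟩)
  -- the part not involving the new variable
  set P' : MvPolynomial σ κ := ∑ s ∈ P.support.filter (fun s => s none = 0),
    monomial s.some (coeff s P) with hP'
  have hP'D : P'.totalDegree ≤ D := by
    apply totalDegree_finsetSum_le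
    intro s hs
    refine (totalDegree_monomial_le _ _).trans ?_
    rw [Finset.mem_filter] at hs
    have := hdegP s hs.1
    rw [degree_option] at this
    exact le_trans (Nat.le_add_left _ _) this
  have hP'V : aeval x P' ∈ V := by
    have h1 : aeval x P' = ∑ s ∈ P.support.filter (fun s => s none = 0), coeff s P •
        (aeval x (monomial s.some 1 : MvPolynomial σ κ) * y ^ (s none)) := by
      rw [hP', map_sum]
      apply Finset.sum_congr rfl
      intro s hs
      rw [Finset.mem_filter] at hs
      rw [hs.2, pow_zero, mul_one, ← map_smul, smul_monomial, smul_eq_mul, mul_one]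
    have h2 := Finset.sum_filter_add_sum_filter_not P.support (fun s => s none = 0)
      (fun s => coeff s P • (aeval x (monomial s.some 1 : MvPolynomial σ κ) * y ^ (s none)))
    rw [h1, eq_sub_of_add_eq h2]
    apply V.sub_mem hPV
    apply V.sum_mem
    intro s hs
    rw [Finset.mem_filter] at hs
    have h3 : 1 ≤ s none := by omega
    rw [hlow s h3 (hnone s hs.1 h3)]
    exact V.smul_mem _ hyV
  have hP'1 := (totalDegree_le_iff_mem _ _).1 (hx P' hP'D hP'V)
  rw [totalDegree_le_iff_mem]
  intro s hs
  by_cases h1 : s none = 0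
  · have h2 : coeff s.some P' = coeff s P := by
      rw [hP', coeff_sum, Finset.sum_eq_single s]
      · rw [coeff_monomial, if_pos rfl]
      · intro s' hs' hne
        rw [Finset.mem_filter] at hs'
        rw [coeff_monomial, if_neg]
        intro h3
        apply hne
        rw [← Finsupp.optionElim_some s', ← Finsupp.optionElim_some s, h3, h1, hs'.2]
      · intro h3
        rw [Finset.mem_filter, not_and_or] at h3
        rcases h3 with h3 | h3
        · exact absurd hs h3
        · exact absurd h1 h3
    have h3 : s.some ∈ P'.support := by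
      rw [MvPolynomial.mem_support_iff, h2]
      exact MvPolynomial.mem_support_iff.1 hs
    rw [degree_option, h1, zero_add]
    exact hP'1 _ h3
  · exact hnone s hs (by omega)

/-- **Key proposition.**  Good points in cubes with sufficiently many independent directions. -/
theorem key [CharZero κ] (σ : Type) [Fintype σ] (D c : ℕ) : ∃ r : ℕ, ∀ (V : Submodule κ C),
    KBd V c → ∀ x : σ → C, NLI V D x → ∀ (β : V) (w : Fin r → V), LinearIndependent κ w →
    ∃ S : Finset (Fin r), NLI V D (fun o : Option σ => o.elim ((β + ∑ i ∈ S, w i : V) : C) x) := by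
  classical
  rcases Nat.lt_or_ge D 2 with hD | hD
  · refine ⟨0, fun V _ x _ β w _ => ⟨∅, fun P hP _ => by omega⟩⟩
  obtain ⟨d, rfl⟩ : ∃ d, D = d + 2 := ⟨D - 2, by omega⟩
  obtain ⟨N, hN⟩ := sf (κ := κ) (C := C) (σ := σ) (K := Dir σ (d + 2)) d c univ
  refine ⟨Fintype.card (Dir σ (d + 2) × Fin N), fun V hV x hx β w hw => ?_⟩
  have ε : Fin (Fintype.card (Dir σ (d + 2) × Fin N)) ≃ Dir σ (d + 2) × Fin N :=
    (Fintype.equivFin _).symm
  set F : Dir σ (d + 2) → Finset (Fin (Fintype.card (Dir σ (d + 2) × Fin N))) := fun k =>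
    univ.image (fun i : Fin N => ε.symm (k, i)) with hF
  have hFcard : ∀ k, N ≤ (F k).card := by
    intro k
    rw [hF, Finset.card_image_of_injective _ (fun i j h => by
      have := ε.symm.injective h
      exact (Prod.mk.inj this).2), Finset.card_univ, Fintype.card_fin]
  have hFdisj : ∀ k l, k ≠ l → Disjoint (F k) (F l) := by
    intro k l hkl
    rw [Finset.disjoint_left]
    intro i hi hi'
    simp only [hF, Finset.mem_image, Finset.mem_univ, true_and] at hi hi'
    obtain ⟨a, rfl⟩ := hi
    obtain ⟨b, hb⟩ := hi'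
    have := ε.symm.injective hb
    exact hkl (Prod.mk.inj this).1.symm
  obtain ⟨T, hT, hQP⟩ := hN V hV x hx _ w F (fun k => hw.linearIndepOn _) hFcard
  obtain ⟨S, hS⟩ := good_point V x hx (fun k => ((∑ i ∈ T k, w i : V) : C)) (fun k => Subtype.mem _)
    hQP.1 (β : C) β.2
  refine ⟨S.biUnion T, ?_⟩
  have h1 : ((β + ∑ i ∈ S.biUnion T, w i : V) : C) = (β : C) + ∑ k ∈ S, ((∑ i ∈ T k, w i : V) : C) := by
    rw [Finset.sum_biUnion (fun k _ l _ hkl =>
      Finset.disjoint_of_subset_left (hT k) (Finset.disjoint_of_subset_right (hT l) (hFdisj k l hkl)))]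
    push_cast
    rfl
  rw [h1]
  exact hS

end

end Pool.Agent.H351R3.Log
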