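import Mathlib
import Pool.Agent.H297R2.Tuples
import Pool.Agent.H301R2.SSE.Forms
import Pool.Agent.H351R3.Log.Key

set_option autoImplicit false

/-!
# Density theorems modulo linear forms in logarithms
-/

namespace Pool.Agent.H351R3.Log

open Finset Module MvPolynomial Pool.Agent.H301R2.SSE Pool.Agent.H297R2

/-- Strong six exponentials theorem, as a kernel bound. -/
theorem KBd_Lt : KBd (κ := QB) (C := ℂ) Lt 2 := by
  intro w hw
  by_contra h
  rw [not_le] at h
  have h3 : ((3 : ℕ) : Cardinal) ≤ Module.rank QB (LinearMap.ker (mulMap (κ := QB) (C := ℂ) Lt w)) := by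
    have h2 := Order.succ_le_of_lt h
    rw [Cardinal.succ_natCast] at h2
    exact_mod_cast h2
  obtain ⟨v, hv⟩ := exists_linearIndependent_of_le_rank h3
  refine strong_six ![1, w] (fun j => (((v j : LinearMap.ker (mulMap (κ := QB) (C := ℂ) Lt w)) : Lt) : ℂ))
    ?_ ?_ ?_
  · intro a b ha hb hab
    simp only [Matrix.cons_val_zero, Matrix.cons_val_one, mul_one] at hab
    have hb0 : b = 0 := by
      by_contra hb0
      apply hw ⟨-a / b, mem_QB.mpr (by
        rw [div_eq_mul_inv]
        exact ha.neg.mul hb.inv)⟩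
      change w = -a / b
      rw [eq_div_iff hb0]
      linear_combination hab
    rw [hb0, zero_mul, add_zero] at hab
    exact ⟨hab, hb0⟩
  · intro c hc hsum j
    have h4 := (Fintype.linearIndependent_iff.1 hv) (fun j => ⟨c j, mem_QB.mpr (hc j)⟩) (by
      apply Subtype.ext
      apply Subtype.ext
      push_cast
      rw [← hsum]
      rfl) j
    exact congrArg Subtype.val h4
  · intro i j
    have hj := (v j).2
    rw [LinearMap.mem_ker, mulMap_apply, Submodule.mkQ_apply, Submodule.Quotient.mk_eq_zero] at hj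
    fin_cases i
    · simp
    · simpa using hj

/-- Enlarging `V` by a finite-dimensional space. -/
theorem KBd_sup {κ C : Type} [Field κ] [Field C] [Algebra κ C] (V G : Submodule κ C) (c g : ℕ)
    (hV : KBd V c) (hG : Module.rank κ G ≤ g) : KBd (V ⊔ G) (c + g + g) := by
  intro w hw
  set G' : Submodule κ (C ⧸ V) := G.map V.mkQ with hG'
  have hG'r : Module.rank κ G' ≤ g := (rank_map_le _ _).trans hG
  have h1 := rank_ker_mkQ _ G' c g (hV w hw) hG'r
  set K := LinearMap.ker (mulMap (V ⊔ G) w) with hK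
  let h : K →ₗ[κ] C ⧸ V := V.mkQ ∘ₗ (V ⊔ G).subtype ∘ₗ K.subtype
  have hsup : ∀ v ∈ V ⊔ G, V.mkQ v ∈ G' := by
    intro v hv
    obtain ⟨a, ha, b, hb, rfl⟩ := Submodule.mem_sup.1 hv
    rw [map_add]
    have : V.mkQ a = 0 := by
      rw [Submodule.mkQ_apply, Submodule.Quotient.mk_eq_zero]; exact ha
    rw [this, zero_add]
    exact Submodule.mem_map_of_mem hb
  have h0 := LinearMap.rank_range_add_rank_ker (R := κ) (M := K) (M₁ := C ⧸ V) h
  rw [← h0]
  have h2 : Module.rank κ (LinearMap.range h) ≤ g := by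
    refine (Submodule.rank_mono ?_).trans hG'r
    rintro _ ⟨v, rfl⟩
    exact hsup _ (v : (V ⊔ G : Submodule κ C)).2
  have h3 : Module.rank κ (LinearMap.ker h) ≤ ((c + g : ℕ) : Cardinal) := by
    refine le_trans ?_ h1
    have hmem : ∀ v : LinearMap.ker h, (((v : K) : (V ⊔ G : Submodule κ C)) : C) ∈ V := by
      intro v
      have hv := v.2
      rw [LinearMap.mem_ker] at hv
      have : V.mkQ (((v : K) : (V ⊔ G : Submodule κ C)) : C) = 0 := hv
      rwa [Submodule.mkQ_apply, Submodule.Quotient.mk_eq_zero] at this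
    let j : LinearMap.ker h →ₗ[κ] LinearMap.ker (G'.mkQ ∘ₗ mulMap V w) :=
      { toFun := fun v => ⟨⟨_, hmem v⟩, by
          rw [LinearMap.mem_ker, LinearMap.comp_apply, Submodule.mkQ_apply,
            Submodule.Quotient.mk_eq_zero, mulMap_apply]
          apply hsup
          have hv : ((v : K) : (V ⊔ G : Submodule κ C)) ∈ LinearMap.ker (mulMap (V ⊔ G) w) := (v : K).2
          rw [LinearMap.mem_ker, mulMap_apply, Submodule.mkQ_apply,
            Submodule.Quotient.mk_eq_zero] at hv
          exact hv⟩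
        map_add' := fun _ _ => rfl
        map_smul' := fun _ _ => rfl }
    apply LinearMap.rank_le_of_injective j
    intro v v' hvv
    apply Subtype.ext
    apply Subtype.ext
    apply Subtype.ext
    exact congrArg (fun u : LinearMap.ker (G'.mkQ ∘ₗ mulMap V w) => ((u : V) : C)) hvv
  rw [add_comm]
  have h4 : ((c + g + g : ℕ) : Cardinal) = ((c + g : ℕ) : Cardinal) + (g : Cardinal) := by
    push_cast; rfl
  rw [h4]
  exact add_le_add h3 h2

theorem NLI.reindex {κ C σ τ : Type} [Field κ] [Field C] [Algebra κ C] (V : Submodule κ C)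
    (e : σ ≃ τ) {D : ℕ} {x : τ → C} (h : NLI V D (x ∘ e)) : NLI V D x := by
  intro P hP hx
  have h1 := h (rename e.symm P) ((totalDegree_rename_le _ P).trans hP) (by
    rw [aeval_rename]
    have : (x ∘ e) ∘ e.symm = x := by funext t; simp
    rw [this]
    exact hx)
  have h2 : P = rename e (rename e.symm P) := by
    rw [rename_rename]
    have : (e : σ → τ) ∘ e.symm = id := by funext t; simp
    rw [this, rename_id_apply]
  rw [h2]
  exact (totalDegree_rename_le _ _).trans h1

theorem NLI.reindex_iff {κ C σ τ : Type} [Field κ] [Field C] [Algebra κ C] (V : Submodule κ C)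
    (e : σ ≃ τ) {D : ℕ} {x : τ → C} : NLI V D (x ∘ e) ↔ NLI V D x := by
  refine ⟨NLI.reindex V e, fun h => ?_⟩
  apply NLI.reindex V e.symm
  have : (x ∘ e) ∘ e.symm = x := by funext t; simp
  rwa [this]

/-- The uniform one-variable density theorem. -/
theorem dens_one (σ : Type) [Fintype σ] (D c : ℕ) (ε : ℝ) (hε : 0 < ε) : ∃ x₀ : ℕ, ∀ x ≥ x₀,
    ∀ V : Submodule QB ℂ, Lt ≤ V → KBd V c →
    ∀ t : σ → ℂ, NLI V D t → ∀ A : Finset ℕ, A ⊆ Ioc 0 x →
    (∀ n ∈ A, ¬ NLI V D (fun o : Option σ => o.elim (Real.log n : ℂ) t)) →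
    (A.card : ℝ) ≤ ε * x := by
  classical
  obtain ⟨r, hr⟩ := key (κ := QB) (C := ℂ) σ D c
  obtain ⟨x₀, hx₀⟩ := dense_cube r ε hε 0
  refine ⟨x₀, fun x hx V hLV hV t ht A hA hbad => ?_⟩
  by_contra hcon
  push Not at hcon
  obtain ⟨a, p, q, ha, hp, hq, hinj, hcube⟩ := hx₀ x hx A hA hcon.le
  -- the family of prime logarithms
  set P : Fin r ⊕ Fin r → ℕ := Sum.elim p q with hPdef
  have hPprime : ∀ i, (P i).Prime := by
    rintro (i | i)
    · exact (hp i).1
    · exact (hq i).1
  have hli := linearIndependent_log_prime P hPprime hinj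
  have hlogV : ∀ n : ℕ, 0 < n → (Real.log n : ℂ) ∈ V := by
    intro n hn
    apply hLV
    apply Lt_log
    rw [← Complex.ofReal_exp, Real.exp_log (by exact_mod_cast hn), Complex.ofReal_natCast]
    exact isAlgebraic_natCast _
  set w : Fin r → V := fun i => ⟨(Real.log (q i) : ℂ) - (Real.log (p i) : ℂ),
    V.sub_mem (hlogV _ (hq i).1.pos) (hlogV _ (hp i).1.pos)⟩ with hw
  have hwli : LinearIndependent QB w := by
    rw [Fintype.linearIndependent_iff]
    intro c hc
    have hc' : ∑ i, (c i : ℂ) * ((Real.log (q i) : ℂ) - (Real.log (p i) : ℂ)) = 0 := by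
      have := congrArg (fun v : V => (v : ℂ)) hc
      push_cast at this
      rw [← this]
      apply Finset.sum_congr rfl
      intro i _
      rfl
    have h1 := baker (fun i => (Real.log (P i) : ℂ)) (by
      intro i
      rw [← Complex.ofReal_exp, Real.exp_log (by exact_mod_cast (hPprime i).pos)]
      rw [Complex.ofReal_natCast]
      exact isAlgebraic_natCast _) hli (Sum.elim (fun i => -(c i : ℂ)) (fun i => (c i : ℂ))) (by
      rintro (i | i)
      · exact ((mem_algebraicClosure_iff).1 (c i).2).neg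
      · exact (mem_algebraicClosure_iff).1 (c i).2) (by
      rw [Fintype.sum_sum_type, ← hc', ← Finset.sum_add_distrib]
      apply Finset.sum_congr rfl
      intro i _
      simp only [Sum.elim_inl, Sum.elim_inr, hPdef]
      ring)
    intro i
    have h2 := h1 (Sum.inr i)
    simp only [Sum.elim_inr] at h2
    exact_mod_cast h2
  have hap' : 0 < a * ∏ i, p i := Nat.mul_pos ha (Finset.prod_pos fun i _ => (hp i).1.pos)
  obtain ⟨S, hS⟩ := hr V hV t ht ⟨(Real.log ((a * ∏ i, p i : ℕ) : ℝ) : ℂ), hlogV _ hap'⟩ w hwli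
  apply hbad _ (hcube S)
  have hap : (0 : ℝ) < a := by exact_mod_cast ha
  have hpp : ∀ i, (0 : ℝ) < p i := fun i => by exact_mod_cast (hp i).1.pos
  have hqp : ∀ i, (0 : ℝ) < q i := fun i => by exact_mod_cast (hq i).1.pos
  have key : Real.log ((a * ∏ i, (if i ∈ S then q i else p i) : ℕ) : ℝ) =
      Real.log ((a * ∏ i, p i : ℕ) : ℝ) + ∑ i ∈ S, (Real.log (q i) - Real.log (p i)) := by
    push_cast
    rw [Real.log_mul hap.ne' (Finset.prod_ne_zero_iff.2 (fun i _ => by
      split_ifs
      · exact (hqp i).ne'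
      · exact (hpp i).ne')),
      Real.log_mul hap.ne' (Finset.prod_ne_zero_iff.2 (fun i _ => (hpp i).ne')),
      Real.log_prod (fun i _ => by
        split_ifs
        · exact (hqp i).ne'
        · exact (hpp i).ne'), Real.log_prod (fun i _ => (hpp i).ne'), add_assoc]
    congr 1
    rw [← Finset.sum_filter_add_sum_filter_not univ (fun i => i ∈ S)
      (fun i => Real.log (if i ∈ S then (q i : ℝ) else (p i : ℝ))),
      ← Finset.sum_filter_add_sum_filter_not univ (fun i => i ∈ S) (fun i => Real.log (p i : ℝ))]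
    have e1 : univ.filter (fun i => i ∈ S) = S := by ext i; simp
    rw [e1]
    have e2 : ∑ i ∈ S, Real.log (if i ∈ S then (q i : ℝ) else (p i : ℝ)) =
        ∑ i ∈ S, Real.log (q i : ℝ) := by
      apply Finset.sum_congr rfl
      intro i hi
      rw [if_pos hi]
    have e3 : ∑ i ∈ univ.filter (fun i => i ∉ S), Real.log (if i ∈ S then (q i : ℝ) else (p i : ℝ)) =
        ∑ i ∈ univ.filter (fun i => i ∉ S), Real.log (p i : ℝ) := by
      apply Finset.sum_congr rfl
      intro i hi
      rw [Finset.mem_filter] at hi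
      rw [if_neg hi.2]
    rw [e2, e3, Finset.sum_sub_distrib]
    ring
  have key2 : (Real.log ((a * ∏ i, (if i ∈ S then q i else p i) : ℕ) : ℝ) : ℂ) =
      (((⟨(Real.log ((a * ∏ i, p i : ℕ) : ℝ) : ℂ), hlogV _ hap'⟩ : V) + ∑ i ∈ S, w i : V) : ℂ) := by
    rw [key, hw]
    push_cast
    rfl
  rw [key2]
  exact hS

open Classical in
/-- The uniform density theorem for tuples. -/
theorem dens_tuples (k : ℕ) : ∀ (σ : Type) [Fintype σ] (D c : ℕ) (ε : ℝ), 0 < ε →
    ∃ x₀ : ℕ, ∀ x ≥ x₀, ∀ V : Submodule QB ℂ, Lt ≤ V → KBd V c → ∀ t : σ → ℂ, NLI V D t →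
    (((Fintype.piFinset fun _ : Fin k => Ioc 0 x).filter (fun n =>
      ¬ NLI V D (Sum.elim t (fun i => (Real.log (n i) : ℂ))))).card : ℝ) ≤
      ε * x ^ k := by
  induction k with
  | zero =>
    intro σ _ D c ε hε
    refine ⟨0, fun x _ V _ _ t ht => ?_⟩
    rw [Finset.filter_false_of_mem]
    · simp [hε.le]
    · intro n _
      push Not
      rw [← NLI.reindex_iff V (Equiv.sumEmpty σ (Fin 0)).symm]
      exact ht
  | succ k ih =>
    intro σ _ D c ε hε
    obtain ⟨x₁, hx₁⟩ := dens_one σ D c (ε / 2) (by linarith)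
    obtain ⟨x₂, hx₂⟩ := ih (Option σ) D c (ε / 2) (by linarith)
    refine ⟨max x₁ x₂, fun x hx V hLV hV t ht => ?_⟩
    set bad : ((Fin (k + 1)) → ℕ) → Prop := fun n =>
      ¬ NLI V D (Sum.elim t (fun i => (Real.log (n i) : ℂ))) with hbad
    set B := (Fintype.piFinset fun _ : Fin (k + 1) => Ioc 0 x).filter bad with hB
    set A := (Ioc 0 x).filter (fun n : ℕ =>
      ¬ NLI V D (fun o : Option σ => o.elim (Real.log n : ℂ) t)) with hA
    have hAcard : (A.card : ℝ) ≤ ε / 2 * x :=
      hx₁ x (le_trans (le_max_left _ _) hx) V hLV hV t ht A (Finset.filter_subset _ _) (by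
        intro n hn; rw [hA, Finset.mem_filter] at hn; exact hn.2)
    have hfib : B.card = ∑ a ∈ Ioc 0 x, (B.filter (fun n => n 0 = a)).card := by
      apply Finset.card_eq_sum_card_fiberwise
      intro n hn
      have hn' : n ∈ B := hn
      rw [hB, Finset.mem_filter, Fintype.mem_piFinset] at hn'
      exact hn'.1 0
    have hle : ∀ a, (B.filter (fun n => n 0 = a)).card ≤
        ((Fintype.piFinset fun _ : Fin k => Ioc 0 x).filter (fun m => bad (Fin.cons a m))).card := by
      intro a
      apply Finset.card_le_card_of_injOn (fun n => Fin.tail n)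
      · intro n hn
        have hn' : n ∈ B.filter (fun n => n 0 = a) := hn
        rw [Finset.mem_filter, hB, Finset.mem_filter, Fintype.mem_piFinset] at hn'
        have hcons : (Fin.cons a (Fin.tail n) : Fin (k + 1) → ℕ) = n := by
          rw [← hn'.2]; exact Fin.cons_self_tail n
        show Fin.tail n ∈ _
        rw [Finset.mem_coe, Finset.mem_filter, Fintype.mem_piFinset]
        refine ⟨fun j => hn'.1.1 j.succ, ?_⟩
        rw [hcons]
        exact hn'.1.2
      · intro n hn m hm h
        have hn' : n ∈ B.filter (fun n => n 0 = a) := hn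
        have hm' : m ∈ B.filter (fun n => n 0 = a) := hm
        rw [Finset.mem_filter] at hn' hm'
        rw [← Fin.cons_self_tail n, ← Fin.cons_self_tail m, hn'.2, hm'.2]
        have : Fin.tail n = Fin.tail m := h
        rw [this]
    have hgood : ∀ a ∈ Ioc 0 x, a ∉ A →
        (((Fintype.piFinset fun _ : Fin k => Ioc 0 x).filter (fun m => bad (Fin.cons a m))).card : ℝ) ≤
          ε / 2 * x ^ k := by
      intro a ha haA
      have hta : NLI V D (fun o : Option σ => o.elim (Real.log a : ℂ) t) := by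
        by_contra hcon
        apply haA
        rw [hA, Finset.mem_filter]
        exact ⟨ha, hcon⟩
      have h1 := hx₂ x (le_trans (le_max_right _ _) hx) V hLV hV _ hta
      refine le_trans (le_of_eq ?_) h1
      congr 2
      apply Finset.filter_congr
      intro m _
      rw [hbad]
      simp only
      rw [not_iff_not, ← NLI.reindex_iff V (optEquiv σ k)]
      have : (Sum.elim t (fun i => (Real.log ((Fin.cons a m : Fin (k + 1) → ℕ) i) : ℂ))) ∘ optEquiv σ k =
          Sum.elim (fun o : Option σ => o.elim (Real.log a : ℂ) t) (fun i => (Real.log (m i) : ℂ)) := by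
        funext s
        rcases s with (_ | i) | j <;> simp [optEquiv]
      rw [this]
    have htriv : ∀ a, (((Fintype.piFinset fun _ : Fin k => Ioc 0 x).filter (fun m => bad (Fin.cons a m))).card : ℝ) ≤
          (x : ℝ) ^ k := by
      intro a
      have h1 := Finset.card_filter_le (Fintype.piFinset fun _ : Fin k => Ioc 0 x) (fun m => bad (Fin.cons a m))
      rw [Fintype.card_piFinset] at h1
      simp only [Nat.card_Ioc, Finset.prod_const, Finset.card_univ, Fintype.card_fin] at h1
      have h2 : (((Fintype.piFinset fun _ : Fin k => Ioc 0 x).filter (fun m => bad (Fin.cons a m))).card : ℝ) ≤ (((x - 0) ^ k : ℕ) : ℝ) := by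
        exact_mod_cast h1
      simpa using h2
    have hAsub : A ⊆ Ioc 0 x := Finset.filter_subset _ _
    calc (B.card : ℝ) = ∑ a ∈ Ioc 0 x, ((B.filter (fun n => n 0 = a)).card : ℝ) := by
          rw [hfib]; push_cast; rfl
      _ ≤ ∑ a ∈ Ioc 0 x, ((if a ∈ A then (x : ℝ) ^ k else 0) + ε / 2 * x ^ k) := by
          apply Finset.sum_le_sum
          intro a ha
          have h1 : ((B.filter (fun n => n 0 = a)).card : ℝ) ≤
            (((Fintype.piFinset fun _ : Fin k => Ioc 0 x).filter (fun m => bad (Fin.cons a m))).card : ℝ) := by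
            exact_mod_cast hle a
          by_cases haA : a ∈ A
          · rw [if_pos haA]
            have h2 := htriv a
            have h3 : (0 : ℝ) ≤ ε / 2 * x ^ k := by positivity
            linarith
          · rw [if_neg haA, zero_add]
            exact h1.trans (hgood a ha haA)
      _ = (A.card : ℝ) * x ^ k + x * (ε / 2 * x ^ k) := by
          rw [Finset.sum_add_distrib, ← Finset.sum_filter, Finset.filter_mem_eq_inter,
            Finset.inter_eq_right.2 hAsub, Finset.sum_const, Finset.sum_const, Nat.card_Ioc,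
            nsmul_eq_mul, nsmul_eq_mul]
          simp
      _ ≤ (ε / 2 * x) * x ^ k + x * (ε / 2 * x ^ k) := by gcongr
      _ = ε * x ^ (k + 1) := by ring

end Pool.Agent.H351R3.Log
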