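import Mathlib
import Pool.Agent.H351R3.Log.Sq

set_option autoImplicit false

/-!
# Squarefree polynomials in the new directions: version with parameters
-/

namespace Pool.Agent.H351R3.Log

open Finset Module MvPolynomial

section

variable {κ C : Type} [Field κ] [Field C] [Algebra κ C]

/-- Allowed exponents: monomials in the parameters, and single further variables. -/
def Alw {τ : Type} (par : τ → Prop) (s : τ →₀ ℕ) : Prop :=
  (∀ i, ¬ par i → s i = 0) ∨ ∃ i, ¬ par i ∧ s = Finsupp.single i 1

/-- Polynomials of degree at most `D` taking values in `V` have only allowed monomials, and there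
is no relation of degree less than `D`. -/
def NLP {σ : Type} (V : Submodule κ C) (par : σ → Prop) (D : ℕ) (x : σ → C) : Prop :=
  (∀ P : MvPolynomial σ κ, P.totalDegree ≤ D → aeval x P ∈ V → ∀ s ∈ P.support, Alw par s) ∧
    (∀ P : MvPolynomial σ κ, P.totalDegree + 1 ≤ D → aeval x P = 0 → P = 0)

variable {σ K : Type}

/-- the parameters among the extended set of variables -/
def spar (K : Type) (par : σ → Prop) : σ ⊕ K → Prop := Sum.elim par (fun _ => False)

/-- The two independence properties. -/
def QP2 (V : Submodule κ C) (par : σ → Prop) (d : ℕ) (A : Finset K) (z : σ ⊕ K → C) : Prop :=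
  (∀ P ∈ Sq κ σ A (d + 1), aeval z P ∈ V → ∀ s ∈ P.support, Alw (spar K par) s) ∧
    (∀ P ∈ Sq κ σ A d, aeval z P = 0 → P = 0)

theorem QP2.not_const {V : Submodule κ C} {par : σ → Prop} {d : ℕ} {A : Finset K} {z : σ ⊕ K → C}
    (h : QP2 V par d A z) {P : MvPolynomial (σ ⊕ K) κ} (hP : P ∈ Sq κ σ A d) (a : κ)
    (ha : aeval z P = algebraMap κ C a) : P = MvPolynomial.C a := by
  have h0 : aeval z (P - MvPolynomial.C a) = 0 := by
    rw [map_sub, ha, aeval_C, sub_self]
  have h1 : P - MvPolynomial.C a ∈ Sq κ σ A d := Submodule.sub_mem _ hP (C_mem_Sq A d a)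
  exact sub_eq_zero.1 (h.2 _ h1 h0)

theorem step2 [Finite σ] [Finite K] [DecidableEq K] [DecidableEq (σ ⊕ K)] (d : ℕ) (c : ℕ)
    (A : Finset K) (k : K) (hk : k ∉ A) :
    ∃ N : ℕ, ∀ (V : Submodule κ C), KBd V c → ∀ (par : σ → Prop) (z : σ ⊕ K → C),
      QP2 V par d A z →
      ∀ (ι : Type) (w : ι → V) (F : Finset ι), LinearIndepOn κ w (F : Set ι) →
      N ≤ F.card → ∃ T ⊆ F,
        QP2 V par d (insert k A) (Function.update z (Sum.inr k) ((∑ i ∈ T, w i : V) : C)) := by
  classical
  have := Sq_finite (κ := κ) (σ := σ) A d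
  have := Sq_finite (κ := κ) (σ := σ) A (d + 1)
  set g := finrank κ (Sq κ σ A (d + 1)) with hg
  obtain ⟨N, hN⟩ := cube_inj_space (κ := κ) (Sq κ σ A d) (c + g)
  refine ⟨N, fun V hV par z hQP ι w F hw hF => ?_⟩
  set ev : Sq κ σ A (d + 1) →ₗ[κ] C := (aeval z).toLinearMap ∘ₗ (Sq κ σ A (d + 1)).subtype with hev
  set G : Submodule κ C := LinearMap.range ev with hG
  have hGr : Module.rank κ G ≤ g := by
    refine (rank_range_le ev).trans ?_
    rw [hg, Module.finrank_eq_rank]
  set G' : Submodule κ (C ⧸ V) := G.map V.mkQ with hG'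
  have hG'r : Module.rank κ G' ≤ g := (rank_map_le _ _).trans hGr
  have hmemG : ∀ P ∈ Sq κ σ A (d + 1), aeval z P ∈ G := fun P hP => ⟨⟨P, hP⟩, rfl⟩
  -- the bilinear map
  set Φ : Sq κ σ A d →ₗ[κ] V →ₗ[κ] ((C ⧸ V) ⧸ G') × (C ⧸ G) :=
    LinearMap.mk₂ κ (fun P v => (G'.mkQ (V.mkQ (aeval z (P : MvPolynomial (σ ⊕ K) κ) * (v : C))),
      G.mkQ (constantCoeff (P : MvPolynomial (σ ⊕ K) κ) • (v : C))))
      (by
        intro P Q v
        simp only [Submodule.coe_add, map_add, add_mul, add_smul, Prod.mk_add_mk])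
      (by
        intro a P v
        rw [Prod.smul_mk, ← map_smul, ← map_smul, ← map_smul]
        refine Prod.ext (congrArg (fun t => G'.mkQ (V.mkQ t)) ?_) (congrArg G.mkQ ?_)
        · rw [Submodule.coe_smul, map_smul, smul_mul_assoc]
        · rw [Submodule.coe_smul, smul_eq_C_mul, map_mul, constantCoeff_C, smul_smul])
      (by
        intro P v w
        simp only [Submodule.coe_add, map_add, mul_add, smul_add, Prod.mk_add_mk])
      (by
        intro a P v
        rw [Prod.smul_mk, ← map_smul, ← map_smul, ← map_smul]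
        refine Prod.ext (congrArg (fun t => G'.mkQ (V.mkQ t)) ?_) (congrArg G.mkQ ?_)
        · rw [Submodule.coe_smul, mul_smul_comm]
        · rw [Submodule.coe_smul, smul_comm]) with hΦ
  have hΦ_apply : ∀ P v, Φ P v = (G'.mkQ (V.mkQ (aeval z (P : MvPolynomial (σ ⊕ K) κ) * (v : C))),
      G.mkQ (constantCoeff (P : MvPolynomial (σ ⊕ K) κ) • (v : C))) := fun P v => rfl
  have hker : ∀ P ≠ 0, Module.rank κ (LinearMap.ker (Φ P)) ≤ ((c + g : ℕ) : Cardinal) := by
    intro P hP
    by_cases hc : ∃ a : κ, aeval z (P : MvPolynomial (σ ⊕ K) κ) = algebraMap κ C a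
    · obtain ⟨a, ha⟩ := hc
      have h1 := hQP.not_const P.2 a ha
      have ha0 : a ≠ 0 := by
        intro h0
        apply hP
        apply Subtype.ext
        rw [h1, h0]; simp
      have h2 : Module.rank κ (LinearMap.ker (Φ P)) ≤ Module.rank κ G := by
        let j : LinearMap.ker (Φ P) →ₗ[κ] G :=
          { toFun := fun v => ⟨((v : V) : C), by
              have hv := v.2
              rw [LinearMap.mem_ker, hΦ_apply] at hv
              have hv2 := (Prod.mk_eq_zero.1 hv).2
              rw [h1, constantCoeff_C, Submodule.mkQ_apply, Submodule.Quotient.mk_eq_zero] at hv2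
              have := G.smul_mem a⁻¹ hv2
              rwa [smul_smul, inv_mul_cancel₀ ha0, one_smul] at this⟩
            map_add' := fun _ _ => rfl
            map_smul' := fun _ _ => rfl }
        apply LinearMap.rank_le_of_injective j
        intro v v' h
        apply Subtype.ext
        apply Subtype.ext
        exact congrArg (fun u : G => (u : C)) h
      refine h2.trans (hGr.trans ?_)
      exact_mod_cast Nat.le_add_left g c
    · push Not at hc
      have h1 := hV _ hc
      have h2 := rank_ker_mkQ _ G' c g h1 hG'r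
      refine le_trans (Submodule.rank_mono ?_) h2
      intro v hv
      rw [LinearMap.mem_ker, hΦ_apply] at hv
      rw [LinearMap.mem_ker, LinearMap.comp_apply, mulMap_apply]
      exact (Prod.mk_eq_zero.1 hv).1
  obtain ⟨T, hT, hinj⟩ := hN V _ Φ hker ι w F hw hF 0
  refine ⟨T, hT, ?_⟩
  rw [zero_add] at hinj
  set δ : V := ∑ i ∈ T, w i with hδ
  have hL : ∀ a : κ, a • (δ : C) ∈ G → a = 0 := by
    intro a ha
    have h1 := hinj ⟨MvPolynomial.C a, C_mem_Sq A d a⟩ (by
      rw [hΦ_apply]
      simp only [aeval_C, constantCoeff_C]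
      rw [Prod.mk_eq_zero]
      constructor
      · rw [← Algebra.smul_def, map_smul]
        have : V.mkQ (δ : C) = 0 := by
          rw [Submodule.mkQ_apply, Submodule.Quotient.mk_eq_zero]; exact δ.2
        rw [this, smul_zero, map_zero]
      · rw [Submodule.mkQ_apply, Submodule.Quotient.mk_eq_zero]
        exact ha)
    have h2 := congrArg (fun P : Sq κ σ A d => (P : MvPolynomial (σ ⊕ K) κ)) h1
    simpa using h2
  have hQ : ∀ P ∈ Sq κ σ A d, (∃ y ∈ G, aeval z P * (δ : C) - y ∈ V) →
      P = MvPolynomial.C (constantCoeff P) := by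
    rintro P hP ⟨y, hy, hyV⟩
    have h1 := hinj ⟨P - MvPolynomial.C (constantCoeff P),
      Submodule.sub_mem _ hP (C_mem_Sq A d _)⟩ (by
      rw [hΦ_apply]
      rw [Prod.mk_eq_zero]
      constructor
      · rw [Submodule.mkQ_apply, Submodule.Quotient.mk_eq_zero, hG', Submodule.mem_map]
        refine ⟨y, hy, ?_⟩
        rw [← sub_eq_zero, ← map_sub, Submodule.mkQ_apply, Submodule.Quotient.mk_eq_zero]
        rw [map_sub, aeval_C, sub_mul]
        have h2 : y - (aeval z P * (δ : C) - algebraMap κ C (constantCoeff P) * (δ : C)) =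
            constantCoeff P • (δ : C) - (aeval z P * (δ : C) - y) := by
          rw [Algebra.smul_def]; ring
        rw [h2]
        exact V.sub_mem (V.smul_mem _ δ.2) hyV
      · simp)
    have h2 := congrArg (fun P : Sq κ σ A d => (P : MvPolynomial (σ ⊕ K) κ)) h1
    exact sub_eq_zero.1 h2
  constructor
  · intro P hP hPV
    obtain ⟨P₀, h0, P₁, h1, rfl⟩ := Sq_split d hP
    rw [map_add, map_mul, aeval_X, Function.update_self, aeval_update hk _ h0,
      aeval_update hk _ h1] at hPV
    have h2 := hQ P₁ h1 ⟨-aeval z P₀, G.neg_mem (hmemG P₀ h0), by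
      have : aeval z P₁ * (δ : C) - -aeval z P₀ = aeval z P₀ + (δ : C) * aeval z P₁ := by ring
      rw [this]; exact hPV⟩
    set a := constantCoeff P₁ with ha
    have h3 : aeval z P₀ ∈ V := by
      have h4 : aeval z P₀ = (aeval z P₀ + (δ : C) * aeval z P₁) - a • (δ : C) := by
        rw [h2, aeval_C, Algebra.smul_def]; ring
      rw [h4]
      exact V.sub_mem hPV (V.smul_mem _ δ.2)
    have h5 := hQP.1 P₀ h0 h3
    intro s hs
    by_cases hs0 : s ∈ P₀.support
    · exact h5 s hs0
    · right
      refine ⟨Sum.inr k, fun h => h, ?_⟩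
      rw [MvPolynomial.mem_support_iff, coeff_add, MvPolynomial.notMem_support_iff.1 hs0, zero_add,
        h2, mul_comm, coeff_C_mul, coeff_X'] at hs
      by_contra hne
      rw [if_neg (fun h => hne h.symm), mul_zero] at hs
      exact hs rfl
  · intro P hP hP0
    rcases Nat.eq_zero_or_pos d with hd | hd
    · subst hd
      have h1 := totalDegree_eq_zero_iff_eq_C.1 (Nat.le_zero.1 (Sq_totalDegree hP))
      rw [h1, aeval_C, map_eq_zero_iff (algebraMap κ C) (algebraMap κ C).injective] at hP0
      rw [h1, hP0, C_0]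
    · obtain ⟨d, rfl⟩ : ∃ d', d = d' + 1 := ⟨d - 1, by omega⟩
      obtain ⟨P₀, h0, P₁, h1, rfl⟩ := Sq_split d hP
      rw [map_add, map_mul, aeval_X, Function.update_self, aeval_update hk _ h0,
        aeval_update hk _ h1] at hP0
      have h2 := hQ P₁ (Sq_mono A (by omega) h1)
        ⟨-aeval z P₀, G.neg_mem (hmemG P₀ (Sq_mono A (by omega) h0)), by
        have : aeval z P₁ * (δ : C) - -aeval z P₀ = aeval z P₀ + (δ : C) * aeval z P₁ := by ring
        rw [this, hP0]; exact V.zero_mem⟩
      set a := constantCoeff P₁ with ha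
      have h3 : a = 0 := by
        apply hL
        have h4 : a • (δ : C) = - aeval z P₀ := by
          rw [h2, aeval_C] at hP0
          rw [Algebra.smul_def]
          have : (algebraMap κ C) a * (δ : C) =
            (aeval z P₀ + (δ : C) * (algebraMap κ C) a) - aeval z P₀ := by ring
          rw [this, hP0, zero_sub]
        rw [h4]
        exact G.neg_mem (hmemG P₀ (Sq_mono A (by omega) h0))
      rw [h3, C_0] at h2
      rw [h2, map_zero, mul_zero, add_zero] at hP0
      rw [h2, mul_zero, add_zero]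
      exact hQP.2 P₀ h0 hP0

theorem QP2_empty (V : Submodule κ C) (par : σ → Prop) (d : ℕ) (x : σ → C)
    (hx : NLP V par (d + 1) x) (y : K → C) :
    QP2 V par d (∅ : Finset K) (Sum.elim x y) := by
  classical
  constructor
  · intro P hP hV
    obtain ⟨P', rfl, hP'⟩ := Sq_empty hP
    rw [aeval_rename, Sum.elim_comp_inl] at hV
    intro s hs
    rw [support_rename_of_injective Sum.inl_injective, Finset.mem_image] at hs
    obtain ⟨s', hs', rfl⟩ := hs
    rcases hx.1 P' hP' hV s' hs' with h | ⟨i, hi, rfl⟩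
    · left
      rintro (i | k) hi
      · rw [Finsupp.mapDomain_apply Sum.inl_injective]
        exact h i hi
      · exact Finsupp.mapDomain_of_notMem_range _ _ (by simp)
    · right
      exact ⟨Sum.inl i, hi, Finsupp.mapDomain_single⟩
  · intro P hP h0
    obtain ⟨P', rfl, hP'⟩ := Sq_empty hP
    rw [aeval_rename, Sum.elim_comp_inl] at h0
    rw [hx.2 P' (by omega) h0, map_zero]

/-- **Independent directions.** -/
theorem sf2 [Finite σ] [Finite K] (d : ℕ) (c : ℕ) (A : Finset K) :
    ∃ N : ℕ, ∀ (V : Submodule κ C), KBd V c → ∀ (par : σ → Prop) (x : σ → C),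
      NLP V par (d + 1) x →
      ∀ (ι : Type) (w : ι → V) (F : K → Finset ι), (∀ k, LinearIndepOn κ w (F k : Set ι)) →
      (∀ k, N ≤ (F k).card) → ∃ T : K → Finset ι, (∀ k, T k ⊆ F k) ∧
        QP2 V par d A (Sum.elim x (fun k => ((∑ i ∈ T k, w i : V) : C))) := by
  classical
  induction A using Finset.induction_on with
  | empty =>
    refine ⟨0, fun V _ par x hx ι w F _ _ => ⟨fun _ => ∅, fun _ => Finset.empty_subset _, ?_⟩⟩
    exact QP2_empty V par d x hx _
  | insert k A hk ih =>
    obtain ⟨N₁, hN₁⟩ := ih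
    obtain ⟨N₂, hN₂⟩ := step2 (κ := κ) (C := C) (σ := σ) d c A k hk
    refine ⟨max N₁ N₂, fun V hV par x hx ι w F hw hF => ?_⟩
    obtain ⟨T, hT, hQP⟩ := hN₁ V hV par x hx ι w F hw (fun k => le_trans (le_max_left _ _) (hF k))
    obtain ⟨T', hT', hQP'⟩ := hN₂ V hV par _ hQP ι w (F k) (hw k)
      (le_trans (le_max_right _ _) (hF k))
    refine ⟨Function.update T k T', ?_, ?_⟩
    · intro l
      by_cases hl : l = k
      · subst hl; rw [Function.update_self]; exact hT'
      · rw [Function.update_of_ne hl]; exact hT l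
    · convert hQP' using 1
      funext i
      rcases i with i | l
      · rw [Function.update_of_ne (by simp)]; rfl
      · by_cases hl : l = k
        · subst hl; simp
        · rw [Function.update_of_ne (by simpa using hl)]
          simp [hl]

end

end Pool.Agent.H351R3.Log
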