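import Mathlib
import Pool.Agent.H351R3.Log.Dens2

set_option autoImplicit false

/-!
# Generic combinations of logarithms modulo linear forms in logarithms
-/

namespace Pool.Agent.H351R3.Log

open Finset Module MvPolynomial Pool.Agent.H301R2.SSE Pool.Agent.H297R2

section

variable {κ C : Type} [Field κ] [Field C] [Algebra κ C]

/-- Subset sums of sufficiently many linearly independent elements: tuples. -/
theorem key_tuples [CharZero κ] (k : ℕ) : ∀ (σ : Type) [Fintype σ] (D c : ℕ), ∃ N : ℕ,
    ∀ (V : Submodule κ C), KBd V c → ∀ (par : σ → Prop) (x : σ → C), NLP V par D x →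
    ∀ (w : Fin N → V), LinearIndependent κ w → ∃ A : Fin k → Finset (Fin N),
      NLP V (spar (Fin k) par) D (Sum.elim x (fun j => ((∑ i ∈ A j, w i : V) : C))) := by
  classical
  induction k with
  | zero =>
    intro σ _ D c
    refine ⟨0, fun V _ par x hx w _ => ⟨Fin.elim0, ?_⟩⟩
    rw [← NLP.reindex_iff V _ (Equiv.sumEmpty σ (Fin 0)).symm]
    exact hx
  | succ k ih =>
    intro σ _ D c
    obtain ⟨r, hr⟩ := key2 (κ := κ) (C := C) σ D c
    obtain ⟨N, hN⟩ := ih (Option σ) D c
    refine ⟨r + N, fun V hV par x hx w hw => ?_⟩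
    obtain ⟨S, hS⟩ := hr V hV par x hx 0 (fun i => w (Fin.castAdd N i))
      (hw.comp _ (Fin.castAdd_injective r N))
    rw [zero_add] at hS
    obtain ⟨A, hA⟩ := hN V hV (opar par) _ hS (fun i => w (Fin.natAdd r i))
      (hw.comp _ (Fin.natAdd_injective N r))
    refine ⟨Fin.cons (S.map (Fin.castAddEmb N)) (fun j => (A j).map (Fin.natAddEmb r)), ?_⟩
    rw [← NLP.reindex_iff V _ (optEquiv σ k)]
    have hpar : (spar (Fin (k + 1)) par) ∘ optEquiv σ k = spar (Fin k) (opar par) := by
      funext s
      rcases s with (_ | i) | j <;> simp [optEquiv, spar, opar]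
    have hval : (Sum.elim x (fun j : Fin (k + 1) =>
        ((∑ i ∈ (Fin.cons (S.map (Fin.castAddEmb N)) (fun j => (A j).map (Fin.natAddEmb r)) :
          Fin (k + 1) → Finset (Fin (r + N))) j, w i : V) : C))) ∘ optEquiv σ k =
        Sum.elim (fun o : Option σ => o.elim ((∑ i ∈ S, w (Fin.castAdd N i) : V) : C) x)
          (fun j => ((∑ i ∈ A j, w (Fin.natAdd r i) : V) : C)) := by
      funext s
      rcases s with (_ | i) | j
      · simp [optEquiv, Finset.sum_map]
      · simp [optEquiv]
      · simp [optEquiv, Finset.sum_map]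
    rw [hpar, hval]
    exact hA

/-- applying a linear functional to the coefficients -/
noncomputable def coefMap {τ : Type} (ℓ : C →ₗ[κ] κ) (Q : MvPolynomial τ C) : MvPolynomial τ κ :=
  ∑ μ ∈ Q.support, monomial μ (ℓ (coeff μ Q))

theorem eval_coefMap {τ : Type} (ℓ : C →ₗ[κ] κ) (Q : MvPolynomial τ C) (a : τ → κ) :
    eval a (coefMap ℓ Q) = ℓ (eval (fun i => algebraMap κ C (a i)) Q) := by
  rw [coefMap, map_sum, eval_eq, map_sum]
  apply Finset.sum_congr rfl
  intro μ _
  rw [eval_monomial, Finsupp.prod]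
  have h : coeff μ Q * ∏ i ∈ μ.support, algebraMap κ C (a i) ^ μ i =
      (∏ i ∈ μ.support, a i ^ μ i) • coeff μ Q := by
    rw [Algebra.smul_def, map_prod, mul_comm]
    simp only [map_pow]
  rw [h, map_smul, smul_eq_mul, mul_comm]

/-- monomials not allowed -/
abbrev NAlw (l k D : ℕ) := {s : Fin l ⊕ Fin k →₀ ℕ //
  s.degree ≤ D ∧ ¬ Alw (spar (Fin k) (fun _ : Fin l => True)) s}

noncomputable instance (l k D : ℕ) : Fintype (NAlw l k D) :=
  ((Finsupp.finite_of_degree_le (σ := Fin l ⊕ Fin k) D).subset
    (fun _ h => h.1 : {s : Fin l ⊕ Fin k →₀ ℕ |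
      s.degree ≤ D ∧ ¬ Alw (spar (Fin k) (fun _ : Fin l => True)) s} ⊆ _)).fintype

/-- expansion of the value of a polynomial -/
theorem aeval_expand {τ : Type} (z : τ → C) (P : MvPolynomial τ κ) :
    aeval z P = ∑ s ∈ P.support, coeff s P • aeval z (monomial s 1 : MvPolynomial τ κ) := by
  conv_lhs => rw [P.as_sum, map_sum]
  apply Finset.sum_congr rfl
  intro s _
  rw [← map_smul, smul_monomial, smul_eq_mul, mul_one]

/-- **Genericity.**  If one combination of the `w i` has the property, then all combinations outside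
of a hypersurface have it. -/
theorem generic_of_exists {l k N : ℕ} (D : ℕ) (V : Submodule κ C) (t : Fin l → C) (w : Fin N → C)
    (hw : ∀ i, w i ∈ V) (A₀ : Fin k × Fin N → κ)
    (h₀ : ∀ P : MvPolynomial (Fin l ⊕ Fin k) κ, P.totalDegree ≤ D →
      aeval (Sum.elim t (fun j => ∑ i, A₀ (j, i) • w i)) P ∈ V →
      ∀ s ∈ P.support, Alw (spar (Fin k) (fun _ : Fin l => True)) s) :
    ∃ Δ : MvPolynomial (Fin k × Fin N) κ, eval A₀ Δ ≠ 0 ∧ ∀ A : Fin k × Fin N → κ, eval A Δ ≠ 0 →
      ∀ P : MvPolynomial (Fin l ⊕ Fin k) κ, P.totalDegree ≤ D →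
        aeval (Sum.elim t (fun j => ∑ i, A (j, i) • w i)) P ∈ V →
        ∀ s ∈ P.support, Alw (spar (Fin k) (fun _ : Fin l => True)) s := by
  classical
  set z : (Fin k × Fin N → κ) → (Fin l ⊕ Fin k → C) := fun A =>
    Sum.elim t (fun j => ∑ i, A (j, i) • w i) with hz
  -- the space generated by `V` and the monomials in the parameters
  set U : Submodule κ C := V ⊔ Submodule.span κ (Set.range fun α : {α : Fin l →₀ ℕ // α.degree ≤ D} =>
    aeval t (monomial α.1 1 : MvPolynomial (Fin l) κ)) with hU
  have hUP : ∀ u ∈ U, ∃ Q : MvPolynomial (Fin l) κ, Q.totalDegree ≤ D ∧ u - aeval t Q ∈ V := by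
    intro u hu
    obtain ⟨v, hv, y, hy, rfl⟩ := Submodule.mem_sup.1 hu
    have : ∃ Q : MvPolynomial (Fin l) κ, Q.totalDegree ≤ D ∧ aeval t Q = y := by
      clear hu
      induction hy using Submodule.span_induction with
      | mem y hy =>
        obtain ⟨α, rfl⟩ := hy
        exact ⟨_, (totalDegree_monomial_le _ _).trans α.2, rfl⟩
      | zero => exact ⟨0, by simp, by simp⟩
      | add y y' _ _ hy hy' =>
        obtain ⟨Q, hQ, rfl⟩ := hy
        obtain ⟨Q', hQ', rfl⟩ := hy'
        exact ⟨Q + Q', (totalDegree_add _ _).trans (max_le hQ hQ'), by rw [map_add]⟩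
      | smul a y _ hy =>
        obtain ⟨Q, hQ, rfl⟩ := hy
        exact ⟨a • Q, (totalDegree_smul_le _ _).trans hQ, by rw [map_smul]⟩
    obtain ⟨Q, hQ, rfl⟩ := this
    exact ⟨Q, hQ, by rw [add_sub_cancel_right]; exact hv⟩
  -- functionals
  have hli : LinearIndependent κ (fun s : NAlw l k D =>
      U.mkQ (aeval (z A₀) (monomial s.1 1 : MvPolynomial (Fin l ⊕ Fin k) κ))) := by
    rw [Fintype.linearIndependent_iff]
    intro c hc s
    have h1 : ∑ s : NAlw l k D, c s •
        aeval (z A₀) (monomial s.1 1 : MvPolynomial (Fin l ⊕ Fin k) κ) ∈ U := by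
      rw [← Submodule.Quotient.mk_eq_zero, ← Submodule.mkQ_apply, map_sum]
      simpa only [map_smul] using hc
    obtain ⟨Q, hQ, hQV⟩ := hUP _ h1
    set P : MvPolynomial (Fin l ⊕ Fin k) κ := ∑ s : NAlw l k D, c s • monomial s.1 1 with hP
    have h2 : aeval (z A₀) (P - rename Sum.inl Q) ∈ V := by
      rw [map_sub, aeval_rename, hz, Sum.elim_comp_inl, hP, map_sum]
      simpa only [map_smul] using hQV
    have h3 : (P - rename Sum.inl Q).totalDegree ≤ D := by
      refine (totalDegree_sub _ _).trans (max_le ?_ ((totalDegree_rename_le _ _).trans hQ))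
      rw [hP]
      apply totalDegree_finsetSum_le
      intro s _
      exact (totalDegree_smul_le _ _).trans ((totalDegree_monomial_le _ _).trans s.2.1)
    by_contra hne
    have h4 : s.1 ∈ (P - rename Sum.inl Q).support := by
      rw [MvPolynomial.mem_support_iff, coeff_sub]
      have h5 : coeff s.1 P = c s := by
        rw [hP, coeff_sum, Finset.sum_eq_single s]
        · rw [coeff_smul, coeff_monomial, if_pos rfl, smul_eq_mul, mul_one]
        · intro s' _ hs'
          rw [coeff_smul, coeff_monomial, if_neg (fun h => hs' (Subtype.ext h)), smul_zero]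
        · intro h; exact absurd (Finset.mem_univ _) h
      have h6 : coeff s.1 (rename Sum.inl Q) = 0 := by
        by_contra h7
        have h8 := MvPolynomial.mem_support_iff.2 h7
        rw [support_rename_of_injective Sum.inl_injective, Finset.mem_image] at h8
        obtain ⟨α, _, hα⟩ := h8
        apply s.2.2
        left
        rintro (i | j) hi
        · exact absurd trivial hi
        · rw [← hα]
          exact Finsupp.mapDomain_of_notMem_range _ _ (by simp)
      rw [h5, h6, sub_zero]
      exact hne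
    exact s.2.2 (h₀ _ h3 h2 _ h4)
  -- dual functionals
  have hdual : ∃ ℓ : NAlw l k D → (C →ₗ[κ] κ), (∀ s, ∀ u ∈ U, ℓ s u = 0) ∧
      ∀ s s', ℓ s (aeval (z A₀) (monomial s'.1 1 : MvPolynomial (Fin l ⊕ Fin k) κ)) =
        if s' = s then 1 else 0 := by
    have hext : ∀ s : NAlw l k D, ∃ f : (C ⧸ U) →ₗ[κ] κ, ∀ s' : NAlw l k D,
        f (U.mkQ (aeval (z A₀) (monomial s'.1 1 : MvPolynomial (Fin l ⊕ Fin k) κ))) =
          if s' = s then 1 else 0 := by
      intro s
      obtain ⟨f, hf⟩ := LinearMap.exists_extend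
        ((Finsupp.lapply s : (NAlw l k D →₀ κ) →ₗ[κ] κ) ∘ₗ hli.repr)
      refine ⟨f, fun s' => ?_⟩
      have h1 := congrArg (fun g : (Submodule.span κ (Set.range fun s : NAlw l k D =>
        U.mkQ (aeval (z A₀) (monomial s.1 1 : MvPolynomial (Fin l ⊕ Fin k) κ)))) →ₗ[κ] κ =>
          g ⟨_, Submodule.subset_span ⟨s', rfl⟩⟩) hf
      simp only [LinearMap.comp_apply, Submodule.subtype_apply] at h1
      rw [h1]
      have h2 := hli.repr_eq_single s' ⟨_, Submodule.subset_span ⟨s', rfl⟩⟩ rfl
      refine (congrArg (Finsupp.lapply s : (NAlw l k D →₀ κ) →ₗ[κ] κ) h2).trans ?_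
      rw [Finsupp.lapply_apply, Finsupp.single_apply]
    choose f hf using hext
    refine ⟨fun s => f s ∘ₗ U.mkQ, fun s u hu => ?_, fun s s' => hf s s'⟩
    have : U.mkQ u = 0 := by
      rw [Submodule.mkQ_apply, Submodule.Quotient.mk_eq_zero]; exact hu
    rw [LinearMap.comp_apply, this, map_zero]
  obtain ⟨ℓ, hℓU, hℓ⟩ := hdual
  -- the generic values of the monomials
  set Y : Fin k → MvPolynomial (Fin k × Fin N) C := fun j => ∑ i, MvPolynomial.C (w i) * X (j, i) with hY
  set T : Fin l ⊕ Fin k → MvPolynomial (Fin k × Fin N) C :=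
    Sum.elim (fun i => MvPolynomial.C (t i)) Y with hT
  set M : NAlw l k D → MvPolynomial (Fin k × Fin N) C := fun s => ∏ i, T i ^ s.1 i with hM
  have hevT : ∀ (A : Fin k × Fin N → κ) i, eval (fun p => algebraMap κ C (A p)) (T i) = z A i := by
    intro A i
    rcases i with i | j
    · simp [hT, hz]
    · simp only [hT, hz, hY, Sum.elim_inr, map_sum, map_mul, eval_C, eval_X]
      apply Finset.sum_congr rfl
      intro i _
      rw [Algebra.smul_def, mul_comm]
  have hevM : ∀ (A : Fin k × Fin N → κ) (s : NAlw l k D),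
      eval (fun p => algebraMap κ C (A p)) (M s) =
        aeval (z A) (monomial s.1 1 : MvPolynomial (Fin l ⊕ Fin k) κ) := by
    intro A s
    rw [hM, map_prod, aeval_monomial, map_one, one_mul, Finsupp.prod_fintype _ _ (by simp)]
    simp only [map_pow, hevT]
  set Mat : Matrix (NAlw l k D) (NAlw l k D) (MvPolynomial (Fin k × Fin N) κ) :=
    fun s s' => coefMap (ℓ s) (M s') with hMat
  have hevMat : ∀ A : Fin k × Fin N → κ, eval A Mat.det =
      Matrix.det (fun s s' : NAlw l k D =>
        ℓ s (aeval (z A) (monomial s'.1 1 : MvPolynomial (Fin l ⊕ Fin k) κ))) := by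
    intro A
    rw [RingHom.map_det]
    congr 1
    ext s s'
    rw [RingHom.mapMatrix_apply, Matrix.map_apply, hMat]
    simp only [eval_coefMap, hevM]
  refine ⟨Mat.det, ?_, ?_⟩
  · intro h
    have h1 := hevMat A₀
    rw [h] at h1
    have h2 : (fun s s' : NAlw l k D =>
        ℓ s (aeval (z A₀) (monomial s'.1 1 : MvPolynomial (Fin l ⊕ Fin k) κ))) =
        (1 : Matrix (NAlw l k D) (NAlw l k D) κ) := by
      ext s s'
      rw [hℓ, Matrix.one_apply]
      simp only [eq_comm]
    rw [h2, Matrix.det_one] at h1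
    exact zero_ne_one h1
  · intro A hA P hP hPV s hs
    by_contra hns
    rw [hevMat] at hA
    have hdeg := (totalDegree_le_iff_mem P D).1 hP
    have hcol : ∀ s : NAlw l k D, ∑ s' : NAlw l k D, coeff s'.1 P *
        ℓ s (aeval (z A) (monomial s'.1 1 : MvPolynomial (Fin l ⊕ Fin k) κ)) = 0 := by
      intro s
      have h1 := hℓU s _ (Submodule.mem_sup_left hPV : _ ∈ U)
      rw [aeval_expand, map_sum] at h1
      simp only [map_smul, smul_eq_mul] at h1
      rw [← h1]
      symm
      have h2 : ∀ s' ∈ P.support, ¬ (s'.degree ≤ D ∧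
          ¬ Alw (spar (Fin k) (fun _ : Fin l => True)) s') →
          coeff s' P * ℓ s (aeval (z A) (monomial s' 1 : MvPolynomial (Fin l ⊕ Fin k) κ)) = 0 := by
        intro s' hs' hns'
        have h3 : Alw (spar (Fin k) (fun _ : Fin l => True)) s' := by
          by_contra h4
          exact hns' ⟨hdeg s' hs', h4⟩
        have h5 : aeval (z A) (monomial s' 1 : MvPolynomial (Fin l ⊕ Fin k) κ) ∈ U := by
          rcases h3 with h3 | ⟨i, hi, h3⟩
          · -- a monomial in the parameters
            set α : Fin l →₀ ℕ := s'.comapDomain Sum.inl Sum.inl_injective.injOn with hα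
            have h6 : s' = α.mapDomain Sum.inl := by
              rw [hα, Finsupp.mapDomain_comapDomain _ Sum.inl_injective]
              intro i hi
              rcases i with i | j
              · exact ⟨i, rfl⟩
              · exfalso
                rw [Finset.mem_coe, Finsupp.mem_support_iff] at hi
                exact hi (h3 (Sum.inr j) (fun h => h))
            have h7 : (monomial s' 1 : MvPolynomial (Fin l ⊕ Fin k) κ) =
                rename Sum.inl (monomial α 1 : MvPolynomial (Fin l) κ) := by
              rw [rename_monomial, ← h6]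
            rw [h7, aeval_rename, hz, Sum.elim_comp_inl]
            apply Submodule.mem_sup_right
            apply Submodule.subset_span
            refine ⟨⟨α, ?_⟩, rfl⟩
            exact (Finsupp.degree_comapDomain_le_of_canonicallyOrderedAdd _).trans (hdeg s' hs')
          · rcases i with i | j
            · exact absurd trivial hi
            · rw [h3]
              have h8 : (monomial (Finsupp.single (Sum.inr j) 1) 1 :
                MvPolynomial (Fin l ⊕ Fin k) κ) = X (Sum.inr j) := rfl
              rw [h8, aeval_X, hz]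
              apply Submodule.mem_sup_left
              exact V.sum_mem fun i _ => V.smul_mem _ (hw i)
        rw [hℓU s _ h5, mul_zero]
      have h3 : ∑ s' ∈ P.support, coeff s' P *
            ℓ s (aeval (z A) (monomial s' 1 : MvPolynomial (Fin l ⊕ Fin k) κ)) =
          ∑ s' ∈ P.support.filter (fun s' => s'.degree ≤ D ∧
            ¬ Alw (spar (Fin k) (fun _ : Fin l => True)) s'), coeff s' P *
            ℓ s (aeval (z A) (monomial s' 1 : MvPolynomial (Fin l ⊕ Fin k) κ)) := by
        rw [Finset.sum_filter_of_ne]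
        intro s' hs' hne
        by_contra hcon
        exact hne (h2 s' hs' hcon)
      rw [h3, ← Finset.sum_subtype_eq_sum_filter]
      apply Finset.sum_subset (Finset.subset_univ _)
      intro q _ hq
      rw [Finset.mem_subtype, MvPolynomial.notMem_support_iff] at hq
      rw [hq, zero_mul]
    have h1 := Matrix.eq_zero_of_mulVec_eq_zero hA (v := fun q : NAlw l k D => coeff q.1 P) (by
      funext p
      rw [Pi.zero_apply, ← hcol p]
      change ∑ q : NAlw l k D, ℓ p (aeval (z A) (monomial q.1 1 :
        MvPolynomial (Fin l ⊕ Fin k) κ)) * coeff q.1 P = _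
      apply Finset.sum_congr rfl
      intro q _
      rw [mul_comm])
    exact (MvPolynomial.mem_support_iff.1 hs) (congrFun h1 ⟨s, hdeg s hs, hns⟩)

end

end Pool.Agent.H351R3.Log
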